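import Pool.Agent.H74.OneP.UStmts

/-! Modules E4 and U17: assembly of the lower and the upper bound. -/

namespace Pool.Agent.H74.OneP

open Equiv Equiv.Perm Drawing

theorem e4 (h1 : LowStmt) (h2 : SmallStmt) (h3 : PlanarStmt) : LowerStmt := by
  rintro n c ⟨M, hs, hm, h2c, h3c, hn, hc⟩
  have G : M.Good := ⟨hs, hm, h2c⟩
  by_cases hX : M.HasX
  · right
    have a := h1 M G hX
    have b := h2 M G h3c hX
    rw [hn, hc] at a
    rw [hn] at b
    obtain ⟨a1, a2, a3, a4⟩ := a
    have hc1 : 1 ≤ c := by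
      obtain ⟨d, x, hx⟩ := hX
      rw [← hc]
      haveI : Nonempty M.X := ⟨x⟩
      exact Nat.card_pos
    refine ⟨b, ?_⟩
    unfold c2
    split_ifs with g1 g2 g3 g4
    · -- n ≤ 29
      by_contra hlt
      have h5 : c ≤ 5 := by omega
      by_cases h6 : 2 ≤ c
      · have := a3 h6 h5
        omega
      · have := a2 h5
        omega
    · by_contra hlt
      have h5 : c ≤ 5 := by omega
      have := a2 h5
      omega
    · by_contra hlt
      omega
    · by_contra hlt
      by_cases h6 : c = 7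
      · have := a4 h6; omega
      · omega
    · omega
  · left; rw [← hn]; exact h3 M G h3c hX

theorem hasPM_of_quad {c : ℕ} (h : HasQuad c) : HasPM c (c + 2) (2 * c) 0 := by
  obtain ⟨Q, hQ, hC, hV, hT, hR⟩ := h
  haveI := hT
  haveI := hR
  haveI := Q.finC
  refine ⟨Q, hQ, hC, hV, ?_, ?_⟩
  · exact Nat.card_of_isEmpty
  · have e : {a : Q.C × Fin 4 // ∃ b, Q.gl (Sum.inl a) = Sum.inl b} ≃ Q.C × Fin 4 :=
      Equiv.subtypeUnivEquiv (fun a => by
        rcases h : Q.gl (Sum.inl a) with b | r
        · exact ⟨b, rfl⟩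
        · exact isEmptyElim r)
    rw [Nat.card_congr e, Nat.card_prod, hC]
    simp
    omega

theorem quad_all (hi : InsertStmt) (hb : BaseQuadStmt) : ∀ c, 8 ≤ c → HasQuad c := by
  intro c
  induction c using Nat.strong_induction_on with
  | _ c ih =>
    intro hc
    obtain ⟨b6, b8, b9, b11⟩ := hb
    by_cases h1 : c = 8
    · rw [h1]; exact b8
    by_cases h2 : c = 9
    · rw [h2]; exact b9
    by_cases h3 : c = 10
    · rw [h3]; exact hi 6 (by norm_num) b6
    by_cases h4 : c = 11
    · rw [h4]; exact b11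
    have := hi (c - 4) (by omega) (ih (c - 4) (by omega) (by omega))
    rwa [Nat.sub_add_cancel (by omega)] at this

theorem u17 (hf : FillStmt) (hk : SkelBaseStmt) (hi : InsertStmt) (hb : BaseQuadStmt)
    (hs : BaseSmallStmt) (h2 : Base2Stmt) (h7 : Base7Stmt) : UpperStmt := by
  intro n hn
  unfold c2
  obtain ⟨b3, b4, b5⟩ := hs
  have hq6 : HasBase 6 8 12 0 := hk 6 8 12 0 (by norm_num) (hasPM_of_quad hb.1)
  split_ifs with g1 g2 g3 g4
  · by_cases k1 : n ≤ 9
    · have : (n + 5) / 5 = 2 := by omega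
      rw [this]
      exact hf 2 5 1 2 h2 (by norm_num) n (by omega) (by omega)
    by_cases k2 : n ≤ 14
    · have : (n + 5) / 5 = 3 := by omega
      rw [this]
      exact hf 3 6 3 2 (hk _ _ _ _ (by norm_num) b3) (by norm_num) n (by omega) (by omega)
    by_cases k3 : n ≤ 19
    · have : (n + 5) / 5 = 4 := by omega
      rw [this]
      exact hf 4 7 5 2 (hk _ _ _ _ (by norm_num) b4) (by norm_num) n (by omega) (by omega)
    by_cases k4 : n ≤ 24
    · have : (n + 5) / 5 = 5 := by omega
      rw [this]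
      exact hf 5 8 7 2 (hk _ _ _ _ (by norm_num) b5) (by norm_num) n (by omega) (by omega)
    · have : (n + 5) / 5 = 6 := by omega
      rw [this]
      exact hf 6 8 12 0 hq6 (by norm_num) n (by omega) (by omega)
  · exact hf 6 8 12 0 hq6 (by norm_num) n (by omega) (by omega)
  · exact hf 7 10 12 1 h7 (by norm_num) n (by omega) (by omega)
  · exact hf 8 10 16 0 (hk _ _ _ _ (by norm_num) (hasPM_of_quad hb.2.1)) (by norm_num) n
      (by omega) (by omega)
  · have hc : 8 ≤ (n + 2) / 5 := by omega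
    exact hf _ _ _ _ (hk _ _ _ _ (by omega) (hasPM_of_quad (quad_all hi hb _ hc))) (by omega) n
      (by omega) (by omega)

end Pool.Agent.H74.OneP
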