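import Pool.Agent.H74.OneP.Bal

/-! Module B1: a face visits a vertex at most once; degrees are at least two. -/

namespace Pool.Agent.H74.OneP

open Equiv Equiv.Perm Drawing

/-- in a 2-connected graph a function on the vertices other than `u` which is constant along the
edges avoiding `u` is constant -/
theorem const_off {V : Type} {G : SimpleGraph V} (h2 : KConnected 2 G) {β : Type*} (f : V → β)
    (u : V) (hf : ∀ x y, x ≠ u → y ≠ u → G.Adj x y → f x = f y) :
    ∀ x y, x ≠ u → y ≠ u → f x = f y := by
  classical
  intro x y hx hy
  have hc := (h2.2 {u} (by simp)).preconnected ⟨x, by simpa using hx⟩ ⟨y, by simpa using hy⟩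
  obtain ⟨w⟩ := hc
  have key : ∀ (a b : {v | v ∉ ({u} : Finset V)}) (_ : (G.induce {v | v ∉ ({u} : Finset V)}).Walk a b),
      f a.1 = f b.1 := by
    intro a b w
    induction w with
    | nil => rfl
    | @cons a c b hac _ ih =>
      rw [← ih]
      refine hf _ _ ?_ ?_ (by simpa using hac)
      · have := a.2; simpa using this
      · have := c.2; simpa using this
  exact key _ _ w

theorem b1 (hc : CurveStmt) : VisitStmt := by
  classical
  intro M G
  refine ⟨?_, ?_⟩
  · intro d e hd he hf ho
    by_contra hde
    obtain ⟨g, hg, hg'⟩ := (hc M).2 (Pi.single d 1 + Pi.single e 1) (bal_rot ho) (bal_nxt hf)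
    have h0 : ∀ a, a ≠ d → a ≠ e → g (M.rot a) = g a := by
      intro a h1 h2
      have := hg' a
      rw [Pi.add_apply, Pi.single_eq_of_ne h1, Pi.single_eq_of_ne h2, add_zero] at this
      exact z20 this
    have hd1 : g (M.rot d) ≠ g d := by
      have := hg' d
      rw [Pi.add_apply, Pi.single_eq_same, Pi.single_eq_of_ne hde, add_zero] at this
      exact z21 this
    -- the values at d and e differ
    have hed : g e ≠ g d := by
      intro hgde
      have key : ∀ n : ℕ, g ((M.rot ^ n) (M.rot d)) = g (M.rot d) := by
        intro n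
        induction n with
        | zero => rfl
        | succ n ih =>
          rw [pow_succ', Perm.mul_apply, h0, ih]
          · intro h'; rw [h'] at ih; exact hd1 ih.symm
          · intro h'; rw [h', hgde] at ih; exact hd1 ih.symm
      have hs : M.rot.SameCycle (M.rot d) d := (M.org_iff _ _).1 (org_rot d)
      obtain ⟨n, hn⟩ := hs.exists_nat_pow_eq
      have := key n
      rw [hn] at this
      exact hd1 this.symm
    obtain ⟨u, hu⟩ := (not_cr_iff d).1 hd
    have hue : M.org e = Sum.inl u := ho ▸ hu
    -- g at other points is constant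
    have hcon : ∀ p, p ≠ Sum.inl u → ∀ a b, M.org a = p → M.org b = p → g a = g b := by
      intro p hp a b ha hb
      refine const_of_rot (p := p) ?_ ha hb
      intro c hc'
      refine h0 c ?_ ?_
      · rintro rfl; exact hp (hc'.symm.trans hu)
      · rintro rfl; exact hp (hc'.symm.trans hue)
    have hcr0 : ∀ a, M.cr a → g (M.rot a) = g a := by
      intro a ha
      refine h0 a ?_ ?_
      · rintro rfl; exact hd ha
      · rintro rfl; exact he ha
    have hfar : ∀ a, ¬ M.cr a → g (M.far a) = g a := by
      intro a ha
      by_cases hca : M.cr (M.rev a)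
      · rw [far_of_cr hca, hg, hcr0 _ (by simpa using hca), hcr0 _ hca, hg]
      · rw [far_of_not hca, hg]
    choose dt hdt using fun v : M.V => M.org_surj (Sum.inl v)
    have hf1 : ∀ v, v ≠ u → ∀ a, M.org a = Sum.inl v → g a = g (dt v) := by
      intro v hv a ha
      exact hcon (Sum.inl v) (fun h => hv (Sum.inl.inj h)) a (dt v) ha (hdt v)
    have hmain := const_off G.conn2 (fun v => g (dt v)) u (by
      intro x y hx hy hxy
      rw [graph_adj_iff G.simple] at hxy
      obtain ⟨a, ha, hax, hay⟩ := hxy
      show g (dt x) = g (dt y)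
      rw [← hf1 x hx a hax, ← hf1 y hy _ hay, hfar a ha])
    obtain ⟨x, hx⟩ := (not_cr_iff _).1 (not_cr_far hd)
    obtain ⟨y, hy⟩ := (not_cr_iff _).1 (not_cr_far he)
    have hxu : x ≠ u := by
      rintro rfl; exact G.no_loop hd (hx.trans hu.symm)
    have hyu : y ≠ u := by
      rintro rfl; exact G.no_loop he (hy.trans hue.symm)
    have h3 : g (dt x) = g (dt y) := hmain x y hxu hyu
    rw [← hf1 x hxu _ hx, ← hf1 y hyu _ hy, hfar d hd, hfar e he] at h3
    exact hed h3.symm
  · intro d hd hrot
    obtain ⟨u, hu⟩ := (not_cr_iff d).1 hd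
    obtain ⟨z, hz⟩ := (not_cr_iff _).1 (not_cr_far hd)
    have huz : u ≠ z := by
      rintro rfl; exact G.no_loop hd (hz.trans hu.symm)
    have honly : ∀ a, M.org a = Sum.inl u → a = d := by
      intro a ha
      obtain ⟨n, hn⟩ := ((M.org_iff d a).1 (hu.trans ha.symm)).exists_nat_pow_eq
      rw [← hn]
      have : ∀ n : ℕ, (M.rot ^ n) d = d := by
        intro n
        induction n with
        | zero => rfl
        | succ n ih => rw [pow_succ', Perm.mul_apply, ih, hrot]
      exact this n
    -- third vertex
    have hcard : 2 < Nat.card M.V := G.conn2.1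
    obtain ⟨t, htu, htz⟩ : ∃ t, t ≠ u ∧ t ≠ z := by
      by_contra hcon
      push Not at hcon
      have hsub : (Finset.univ : Finset M.V) ⊆ {u, z} := by
        intro t _
        by_cases h : t = u
        · simp [h]
        · simp [hcon t h]
      have h1 := Finset.card_le_card hsub
      have h2 : ({u, z} : Finset M.V).card ≤ 2 := Finset.card_le_two
      rw [Finset.card_univ, ← Nat.card_eq_fintype_card] at h1
      omega
    have hmain := const_off G.conn2 (fun v => v = u) z (by
      intro x y hx hy hxy
      rw [graph_adj_iff G.simple] at hxy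
      have hkey : ∀ x y, adj (M := M) (Sum.inl x) (Sum.inl y) → x = u → y = z := by
        rintro x y ⟨a, _, hax, hay⟩ rfl
        rw [honly a hax, hz] at hay
        exact (Sum.inl.inj hay).symm
      apply propext
      constructor
      · intro h; exact absurd (hkey x y hxy h) hy
      · intro h; exact absurd (hkey y x (adj_symm hxy) h) hx)
    have h3 : (u = u) = (t = u) := hmain u t huz htz
    exact htu (by rw [← h3])

end Pool.Agent.H74.OneP
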