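import Pool.Agent.H74.OneP.B4

/-! Module B10: two consecutive sides of an interior vertex of degree three are not both bad. -/

namespace Pool.Agent.H74.OneP

open Equiv Equiv.Perm Drawing

/-- the darts at a point on a `rot`-cycle of length three -/
theorem three_darts {M : Drawing} {e : M.D} (h3 : M.rot (M.rot (M.rot e)) = e) {e' : M.D}
    (h : M.org e' = M.org e) : e' = e ∨ e' = M.rot e ∨ e' = M.rot (M.rot e) := by
  obtain ⟨n, hn⟩ := ((M.org_iff e e').1 h.symm).exists_nat_pow_eq
  rw [← hn]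
  clear hn
  induction n with
  | zero => left; rfl
  | succ n ih =>
    rw [pow_succ', Perm.mul_apply]
    rcases ih with h | h | h <;> rw [h]
    · right; left; rfl
    · right; right; rfl
    · left; exact h3

/-- the data of a bad side -/
theorem bad_side {M : Drawing} (G : M.Good) (hX : M.HasX) (hco : CornerStmt)
    (hac : AcrossStmt) (htw : TwoStmt) {e : M.D} (he : inter e)
    (h3 : M.rot (M.rot (M.rot e)) = e) (hb : ¬ gs (M.nxt e)) :
    ¬ M.cr (M.rev (M.nxt e)) ∧ M.nxt (M.nxt e) = M.rev (M.rot e) ∧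
      ∃ t, ¬ M.cr t ∧ M.fac t = M.fac (M.rev (M.nxt e)) ∧
        M.org t = M.org (M.rev (M.rot (M.rot e))) := by
  have hcr : ¬ M.cr (M.rev (M.nxt e)) := fun h => hb (Or.inl h)
  have hnn : M.nxt (M.nxt e) = M.rev (M.rot e) := by
    rcases (hco M G e he).2 with h | h
    · exact h.2
    · exact absurd h.1 hcr
  refine ⟨hcr, hnn, ?_⟩
  have rn : ¬ M.cr (M.nxt e) := by rw [cr_congr (org_nxt e)]; exact (he e rfl).2
  by_contra hcon
  apply hb
  apply htw M G _ rn hcr
  intro t ht hf
  have o1 : M.org (M.nxt e) = M.org (M.rev e) := org_nxt e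
  have o2 : M.org (M.rev (M.nxt e)) = M.org (M.rev (M.rot e)) := by rw [← hnn, org_nxt]
  rcases hac M G hX e he hcr t ht hf with h | h | ⟨e', h1, h2, h4, h5⟩
  · left; rw [h, o1]
  · right; rw [h, o2]
  · exfalso
    rcases three_darts h3 h1 with h6 | h6 | h6
    · exact h2 h6
    · exact h4 h6
    · exact hcon ⟨t, ht, hf, by rw [h5, h6]⟩

theorem b10 (hc : CurveStmt) (hv : VisitStmt) (hco : CornerStmt) (hac : AcrossStmt)
    (htw : TwoStmt) : TwoBadStmt := by
  classical
  intro M G hX e he hni h3 h2 hb0 hb1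
  set e1 := M.rot e with he1
  set e2 := M.rot e1 with he2
  have o1 : M.org e1 = M.org e := org_rot e
  have o2 : M.org e2 = M.org e := (org_rot _).trans o1
  have hie1 : inter e1 := fun e' h' => he e' (h'.trans o1)
  have h3' : M.rot (M.rot (M.rot e1)) = e1 := by
    rw [← he2]; rw [h3]
  have h01 : e1 ≠ e := (hv M G).2 e (he e rfl).1
  have h12 : e2 ≠ e1 := (hv M G).2 e1 (hie1 e1 rfl).1
  obtain ⟨c0, n0, b, hb, hbf, hbo⟩ := bad_side G hX hco hac htw he h3 hb0
  obtain ⟨c1, n1, a, ha, haf, hao⟩ := bad_side G hX hco hac htw hie1 h3' hb1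
  rw [← he1, ← he2] at hbo
  rw [← he1] at n0
  rw [← he2, h3] at hao
  rw [← he2] at n1
  set k0 := M.nxt e with hk0
  set k1 := M.nxt e1 with hk1
  set m := M.rev k0 with hm
  -- points
  have xy : M.org (M.rev e) ≠ M.org (M.rev e1) := fun h => h01 (ends_inj G he o1 rfl h.symm)
  have xz : M.org (M.rev e) ≠ M.org (M.rev e2) := fun h => h2 (ends_inj G he o2 rfl h.symm)
  have yz : M.org (M.rev e1) ≠ M.org (M.rev e2) := fun h => h12 (ends_inj G he o2 o1 h.symm)
  have wx : M.org (M.rev e) ≠ M.org e := ends_ne G he rfl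
  have wy : M.org (M.rev e1) ≠ M.org e := ends_ne G he o1
  have wz : M.org (M.rev e2) ≠ M.org e := ends_ne G he o2
  have ok0 : M.org k0 = M.org (M.rev e) := org_nxt e
  have om : M.org m = M.org (M.rev e1) := by rw [hm, ← org_nxt, n0]
  have ok1 : M.org k1 = M.org (M.rev e1) := org_nxt e1
  have ork1 : M.org (M.rev k1) = M.org (M.rev e2) := by rw [← org_nxt, n1]
  have rk1 : ¬ M.cr k1 := by rw [cr_congr ok1]; exact (hie1 e1 rfl).2
  have rm : ¬ M.cr m := by rw [cr_congr om]; exact (hie1 e1 rfl).2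
  -- rotations at y
  have r1 : M.rot k1 = M.rev e1 := rot_nxt e1
  have r2 : M.rot (M.rev e1) = m := by rw [← n0, rot_nxt]
  -- faces
  have fk1 : M.fac k1 = M.fac e1 := fac_nxt e1
  have fe2 : M.fac (M.rev e2) = M.fac e1 := fac_rev_rot e1
  -- the curve
  obtain ⟨g, hg, hg'⟩ := (hc M).2 ((Pi.single m 1 + Pi.single b 1) +
    (Pi.single (M.rev e2) 1 + Pi.single k1 1)) (by
      have : ((Pi.single m 1 + Pi.single b 1) + (Pi.single (M.rev e2) 1 + Pi.single k1 1) :
          M.D → ZMod 2) = (Pi.single m 1 + Pi.single k1 1) +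
          (Pi.single b 1 + Pi.single (M.rev e2) 1) := by abel
      rw [this]
      exact bal_add (bal_rot (om.trans ok1.symm)) (bal_rot hbo))
    (bal_add (bal_nxt hbf.symm) (bal_nxt (fe2.trans fk1.symm)))
  have h0 : ∀ d, d ≠ m → d ≠ b → d ≠ M.rev e2 → d ≠ k1 → g (M.rot d) = g d := by
    intro d q1 q2 q3 q4
    have := hg' d
    simp only [Pi.add_apply] at this
    rw [Pi.single_eq_of_ne q1, Pi.single_eq_of_ne q2, Pi.single_eq_of_ne q3,
      Pi.single_eq_of_ne q4] at this
    simp only [add_zero] at this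
    exact z20 this
  have k1m : k1 ≠ m := by
    intro h
    have : M.rev k1 = k0 := by rw [h, hm]; simp
    exact xz (by rw [← ok0, ← this, ork1])
  have k1b : k1 ≠ b := fun h => yz (by rw [← ok1, h, hbo])
  have k1e : k1 ≠ M.rev e2 := fun h => yz (by rw [← ok1, h])
  have hk1g : g (M.rev e1) ≠ g k1 := by
    have := hg' k1
    simp only [Pi.add_apply] at this
    rw [Pi.single_eq_of_ne k1m, Pi.single_eq_of_ne k1b, Pi.single_eq_of_ne k1e,
      Pi.single_eq_same, r1] at this
    simp only [zero_add] at this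
    exact z21 this
  have hmg : g m = g (M.rev e1) := by
    rw [← r2]
    refine h0 _ ?_ ?_ ?_ ?_
    · intro h
      have : e1 = k0 := by
        have := congrArg M.rev h
        rw [rev_rev', hm, rev_rev'] at this; exact this
      exact wx (by rw [← ok0, ← this, o1])
    · intro h; exact yz (by rw [h, hbo])
    · intro h; exact yz (by rw [h])
    · intro h
      have : e1 = M.rev k1 := by rw [← h]; simp
      exact wz (by rw [← ork1, ← this, o1])
  -- at x
  have hxg : g a = g m := by
    have h5 : g a = g k0 := by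
      refine const_of_rot (p := M.org (M.rev e)) ?_ hao ok0
      intro d hd
      refine h0 d ?_ ?_ ?_ ?_
      · rintro rfl; exact xy (hd.symm.trans om)
      · rintro rfl; exact xz (hd.symm.trans hbo)
      · rintro rfl; exact xz hd.symm
      · rintro rfl; exact xy (hd.symm.trans ok1)
    rw [h5, hm, hg]
  -- the face behind k1
  have onr : M.org (M.nxt (M.rev k1)) = M.org k1 := by rw [org_nxt, rev_rev']
  have rnr : ¬ M.cr (M.nxt (M.rev k1)) := by rw [cr_congr onr]; exact rk1
  have F1 : M.fac (M.rev k1) ≠ M.fac e1 := by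
    intro h
    have h5 : M.nxt (M.rev k1) = k1 := (hv M G).1 _ _ rnr rk1
      (by rw [fac_nxt, h, fk1]) onr
    have h6 : M.rot (M.nxt (M.rev k1)) = k1 := by rw [rot_nxt, rev_rev']
    rw [h5] at h6
    exact (hv M G).2 k1 rk1 h6
  have F2 : M.fac (M.rev k1) ≠ M.fac m := by
    intro h
    have h5 : M.nxt (M.rev k1) = m := (hv M G).1 _ _ rnr rm
      (by rw [fac_nxt, h]) (by rw [onr, ok1, om])
    have h6 : M.rot m = k1 := by rw [← h5, rot_nxt, rev_rev']
    apply hni e1 o1
    intro e' he'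
    have h7 : M.rot (M.rot (M.rot (M.rev e1))) = M.rev e1 := by rw [r2, h6, r1]
    rcases three_darts h7 he' with h8 | h8 | h8
    · rw [h8]; exact ⟨(hie1 e1 rfl).2, by simpa using (hie1 e1 rfl).1⟩
    · rw [h8, r2]; exact ⟨rm, by
        rw [hm, rev_rev', cr_congr ok0]; exact (he e rfl).2⟩
    · rw [h8, r2, h6]; exact ⟨rk1, c1⟩
  have hface : g a = g (M.rev k1) := by
    refine const_of_nxt (p := M.fac (M.rev k1)) ?_ haf rfl
    intro d hd
    have hnd : M.fac (M.nxt d) = M.fac (M.rev k1) := (fac_nxt d).trans hd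
    have : g (M.rot (M.nxt d)) = g (M.nxt d) := by
      refine h0 _ ?_ ?_ ?_ ?_
      · intro h; exact F2 (by rw [← hnd, h])
      · intro h; exact F2 (by rw [← hnd, h, hbf])
      · intro h; exact F1 (by rw [← hnd, h, fe2])
      · intro h; exact F1 (by rw [← hnd, h, fk1])
    rw [← this, rot_nxt, hg]
  rw [hg, hxg, hmg] at hface
  exact hk1g hface

end Pool.Agent.H74.OneP
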