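import Pool.Agent.H74.OneP.Bal

/-! Module B2: the triangle colouring. -/

namespace Pool.Agent.H74.OneP

open Equiv Equiv.Perm Drawing

theorem b2 (hc : CurveStmt) : TriStmt := by
  classical
  intro M G e₁ e₂ k he₁ hw hne hk hkp hkq
  -- real darts
  have r1 : ¬ M.cr e₁ := (he₁ e₁ rfl).1
  have r1' : ¬ M.cr (M.rev e₁) := (he₁ e₁ rfl).2
  have r2 : ¬ M.cr e₂ := (he₁ e₂ hw).1
  have r2' : ¬ M.cr (M.rev e₂) := (he₁ e₂ hw).2
  have f1 : M.far e₁ = M.rev e₁ := far_of_not r1'
  have f2 : M.far e₂ = M.rev e₂ := far_of_not r2'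
  have hwp : M.org (M.rev e₁) ≠ M.org e₁ := by rw [← f1]; exact G.no_loop r1
  have hwq : M.org (M.rev e₂) ≠ M.org e₁ := by rw [← f2, ← hw]; exact G.no_loop r2
  have hpq : M.org (M.rev e₁) ≠ M.org (M.rev e₂) := by
    intro h
    exact hne (G.no_multi r1 hw.symm (by rw [f1, f2]; exact h))
  have rfk : ¬ M.cr (M.far k) := not_cr_far hk
  have hkrev : M.rev k ≠ k := M.rev_ne k
  -- the cycle
  set h : M.D → ZMod 2 := (Pi.single e₁ 1 + Pi.single e₂ 1) +
    (Pi.single (M.rev e₁) 1 + Pi.single k 1) + (Pi.single (M.rev e₂) 1 + Pi.single (M.far k) 1) +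
    (if M.cr (M.rev k) then (Pi.single (M.rev k) 1 + Pi.single (M.rev (M.far k)) 1) else 0) with hh
  have hbr : Bal M.rot h := by
    refine bal_add (bal_add (bal_add (bal_rot hw.symm) (bal_rot hkp.symm)) (bal_rot hkq.symm)) ?_
    split_ifs with hcr
    · apply bal_rot
      rw [far_of_cr hcr]; simp
    · exact bal_zero
  have hbv : Bal M.rev h := by
    by_cases hcr : M.cr (M.rev k)
    · have : h = (Pi.single e₁ 1 + Pi.single (M.rev e₁) 1) +
          (Pi.single e₂ 1 + Pi.single (M.rev e₂) 1) +
          (Pi.single k 1 + Pi.single (M.rev k) 1) +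
          (Pi.single (M.far k) 1 + Pi.single (M.rev (M.far k)) 1) := by
        rw [hh, if_pos hcr]; abel
      rw [this]
      exact bal_add (bal_add (bal_add (bal_rev _) (bal_rev _)) (bal_rev _)) (bal_rev _)
    · have : h = (Pi.single e₁ 1 + Pi.single (M.rev e₁) 1) +
          (Pi.single e₂ 1 + Pi.single (M.rev e₂) 1) +
          (Pi.single k 1 + Pi.single (M.rev k) 1) := by
        rw [hh, if_neg hcr, far_of_not hcr]; abel
      rw [this]
      exact bal_add (bal_add (bal_rev _) (bal_rev _)) (bal_rev _)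
  obtain ⟨col, hcol, hcol'⟩ := (hc M).1 h hbr hbv
  -- evaluation of h
  have hzero : ∀ d, d ≠ e₁ → d ≠ e₂ → d ≠ M.rev e₁ → d ≠ k → d ≠ M.rev e₂ → d ≠ M.far k →
      (M.cr (M.rev k) → d ≠ M.rev k ∧ d ≠ M.rev (M.far k)) → h d = 0 := by
    intro d h1 h2 h3 h4 h5 h6 h7
    rw [hh]
    simp only [Pi.add_apply]
    rw [Pi.single_eq_of_ne h1, Pi.single_eq_of_ne h2, Pi.single_eq_of_ne h3,
      Pi.single_eq_of_ne h4, Pi.single_eq_of_ne h5, Pi.single_eq_of_ne h6]
    split_ifs with hcr
    · rw [Pi.add_apply, Pi.single_eq_of_ne (h7 hcr).1, Pi.single_eq_of_ne (h7 hcr).2]; simp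
    · simp
  -- darts at w
  have atw : ∀ d, M.org d = M.org e₁ → d ≠ M.rev e₁ ∧ d ≠ k ∧ d ≠ M.rev e₂ ∧ d ≠ M.far k ∧
      (M.cr (M.rev k) → d ≠ M.rev k ∧ d ≠ M.rev (M.far k)) := by
    intro d hd
    refine ⟨?_, ?_, ?_, ?_, fun hcr => ⟨?_, ?_⟩⟩
    · rintro rfl; exact hwp hd
    · rintro rfl; exact hwp (hkp.symm.trans hd)
    · rintro rfl; exact hwq hd
    · rintro rfl; exact hwq (hkq.symm.trans hd)
    · rintro rfl; exact r1 ((cr_congr hd).1 hcr)
    · rintro rfl
      refine r1 ((cr_congr hd).1 ?_)
      rw [far_of_cr hcr]; simpa using hcr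
  have hrevzero : ∀ d, M.org d = M.org e₁ → d ≠ e₁ → d ≠ e₂ → h (M.rev d) = 0 := by
    intro d hd h1 h2
    have hrd : ¬ M.cr (M.rev d) := (he₁ d hd).2
    have A := atw d hd
    refine hzero _ ?_ ?_ ?_ ?_ ?_ ?_ (fun hcr => ⟨?_, ?_⟩)
    · intro h'; apply A.1; rw [← h']; simp
    · intro h'; apply A.2.2.1; rw [← h']; simp
    · intro h'; exact h1 (M.rev.injective h')
    · intro h'
      have : ¬ M.cr (M.rev k) := by rw [← h']; simpa using (he₁ d hd).1
      apply A.2.2.2.1; rw [far_of_not this, ← h']; simp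
    · intro h'; exact h2 (M.rev.injective h')
    · intro h'
      by_cases hcr : M.cr (M.rev k)
      · rw [far_of_cr hcr] at h'
        have := M.rev.injective h'
        exact (he₁ d hd).1 (by rw [this]; simpa using hcr)
      · rw [far_of_not hcr] at h'
        exact A.2.1 (M.rev.injective h')
    · intro h'; exact A.2.1 (M.rev.injective h')
    · intro h'; exact A.2.2.2.1 (M.rev.injective h')
  have he1 : h e₁ = 1 := by
    have A := atw e₁ rfl
    rw [hh]
    simp only [Pi.add_apply]
    rw [Pi.single_eq_same, Pi.single_eq_of_ne hne, Pi.single_eq_of_ne A.1,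
      Pi.single_eq_of_ne A.2.1, Pi.single_eq_of_ne A.2.2.1, Pi.single_eq_of_ne A.2.2.2.1]
    split_ifs with hcr
    · rw [Pi.add_apply, Pi.single_eq_of_ne (A.2.2.2.2 hcr).1,
        Pi.single_eq_of_ne (A.2.2.2.2 hcr).2]; simp
    · simp
  have he2 : h e₂ = 1 := by
    have A := atw e₂ hw
    rw [hh]
    simp only [Pi.add_apply]
    rw [Pi.single_eq_of_ne hne.symm, Pi.single_eq_same, Pi.single_eq_of_ne A.1,
      Pi.single_eq_of_ne A.2.1, Pi.single_eq_of_ne A.2.2.1, Pi.single_eq_of_ne A.2.2.2.1]
    split_ifs with hcr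
    · rw [Pi.add_apply, Pi.single_eq_of_ne (A.2.2.2.2 hcr).1,
        Pi.single_eq_of_ne (A.2.2.2.2 hcr).2]; simp
    · simp
  -- darts at other vertices
  have offzero : ∀ d, ¬ M.cr d → M.org d ≠ M.org e₁ → M.org d ≠ M.org (M.rev e₁) →
      M.org d ≠ M.org (M.rev e₂) → h d = 0 := by
    intro d hd h1 h2 h3
    refine hzero _ ?_ ?_ ?_ ?_ ?_ ?_ (fun hcr => ⟨?_, ?_⟩)
    · rintro rfl; exact h1 rfl
    · rintro rfl; exact h1 hw
    · rintro rfl; exact h2 rfl
    · rintro rfl; exact h2 hkp
    · rintro rfl; exact h3 rfl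
    · rintro rfl; exact h3 hkq
    · rintro rfl; exact hd hcr
    · rintro rfl; apply hd; rw [far_of_cr hcr]; simpa using hcr
  refine ⟨col, hcol, ?_, ?_, ?_, ?_, ?_⟩
  · intro d hd h1 h2
    have A := atw d hd
    have hd0 : h d = 0 := hzero d h1 h2 A.1 A.2.1 A.2.2.1 A.2.2.2.1 A.2.2.2.2
    constructor
    · have := hcol' d; rw [hd0] at this; exact z20 this
    · have h3 := hcol' (M.rev d)
      rw [hrevzero d hd h1 h2] at h3
      have h4 : col (M.rot⁻¹ (M.rev d)) = col d := hcol d
      rw [h4] at h3
      exact (z20 h3).symm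
  · have := hcol' e₁; rw [he1] at this; exact z21 this
  · have := hcol' e₂; rw [he2] at this; exact z21 this
  · intro d hd h1 h2 h3
    constructor
    · have h4 := hcol' (M.rot d)
      rw [offzero (M.rot d) (by simpa using hd) (by simpa using h1) (by simpa using h2)
        (by simpa using h3)] at h4
      have := z20 h4
      simpa using this.symm
    · intro h4 h5 h6
      have hfd : ¬ M.cr (M.far d) := not_cr_far hd
      by_cases hcd : M.cr (M.rev d)
      · -- crossed
        have hdk : d ≠ k := by rintro rfl; exact h2 hkp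
        have hdf : d ≠ M.far k := by rintro rfl; exact h3 hkq
        have hfdk : M.far d ≠ k := by intro h'; exact h5 (by rw [h', hkp])
        have hfdf : M.far d ≠ M.far k := by intro h'; exact h6 (by rw [h', hkq])
        -- crossing darts in the support
        have hcross : ∀ a, M.cr a → a ≠ M.rev k → a ≠ M.rev (M.far k) → h a = 0 := by
          intro a ha g1 g2
          refine hzero _ ?_ ?_ ?_ ?_ ?_ ?_ (fun _ => ⟨g1, g2⟩)
          · rintro rfl; exact r1 ha
          · rintro rfl; exact r2 ha
          · rintro rfl; exact r1' ha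
          · rintro rfl; exact hk ha
          · rintro rfl; exact r2' ha
          · rintro rfl; exact rfk ha
        have hcross' : ∀ a, M.cr a → ¬ M.cr (M.rev k) → h a = 0 := by
          intro a ha g1
          refine hzero _ ?_ ?_ ?_ ?_ ?_ ?_ (fun g => absurd g g1)
          · rintro rfl; exact r1 ha
          · rintro rfl; exact r2 ha
          · rintro rfl; exact r1' ha
          · rintro rfl; exact hk ha
          · rintro rfl; exact r2' ha
          · rintro rfl; exact rfk ha
        have ha0 : h (M.rev d) = 0 := hcross _ hcd (fun h' => hdk (M.rev.injective h'))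
          (fun h' => hdf (M.rev.injective h'))
        have hcola : col (M.rev d) = col d := by
          have h7 := hcol' (M.rev d)
          rw [ha0] at h7
          have h8 : col (M.rot⁻¹ (M.rev d)) = col d := hcol d
          rw [h8] at h7
          exact (z20 h7).symm
        have hfar : col (M.far d) = col (M.rot (M.rev d)) := by
          have h7 : col (M.nxt (M.far d)) = col (M.far d) := hcol _
          rw [far_of_cr hcd, nxt_apply] at h7
          simp only [rev_rev', rotinv_rot] at h7
          rw [far_of_cr hcd]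
          exact h7.symm
        have hrot := hcol' (M.rot (M.rev d))
        simp only [rotinv_rot] at hrot
        rw [hcola] at hrot
        by_cases hin : M.cr (M.rev k) ∧ (M.rot (M.rev d) = M.rev k ∨
            M.rot (M.rev d) = M.rev (M.far k))
        · right
          refine ⟨hin.1, ?_⟩
          rcases hin.2 with h7 | h7
          · right; rw [← h7]; simp
          · left
            rw [far_of_cr hin.1] at h7
            simp only [rev_rev'] at h7
            exact M.rot.injective h7
        · left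
          have h0 : h (M.rot (M.rev d)) = 0 := by
            by_cases hcr : M.cr (M.rev k)
            · refine hcross _ (by simpa using hcd) (fun h' => hin ⟨hcr, Or.inl h'⟩)
                (fun h' => hin ⟨hcr, Or.inr h'⟩)
            · exact hcross' _ (by simpa using hcd) hcr
          rw [h0] at hrot
          rw [hfar]; exact (z20 hrot).symm
      · left
        rw [far_of_not hcd] at h4 h5 h6 ⊢
        have h7 := hcol' (M.rev d)
        rw [offzero (M.rev d) hcd h4 h5 h6] at h7
        have h8 : col (M.rot⁻¹ (M.rev d)) = col d := hcol d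
        rw [h8] at h7
        exact (z20 h7).symm
  · intro hcr
    have hfk : M.far k = M.rev k := far_of_not hcr
    have hk1 : h k = 1 := by
      rw [hh]
      simp only [Pi.add_apply]
      have g1 : k ≠ e₁ := by intro h'; exact hwp (by rw [← hkp, h'])
      have g2 : k ≠ e₂ := by intro h'; exact hwp (by rw [← hkp, h', hw])
      have g3 : k ≠ M.rev e₁ := by
        intro h'
        apply hwq
        rw [← hkq, hfk, h']; simp
      have g4 : k ≠ M.rev e₂ := by intro h'; exact hpq (by rw [← hkp, h'])
      have g5 : k ≠ M.far k := by rw [hfk]; exact hkrev.symm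
      rw [Pi.single_eq_of_ne g1, Pi.single_eq_of_ne g2, Pi.single_eq_of_ne g3, Pi.single_eq_same,
        Pi.single_eq_of_ne g4, Pi.single_eq_of_ne g5, if_neg hcr]
      simp
    have h7 := hcol' k
    rw [hk1] at h7
    have h8 : col (M.nxt (M.rev k)) = col (M.rev k) := hcol _
    rw [nxt_apply, rev_rev'] at h8
    rw [h8] at h7
    exact z21 h7

end Pool.Agent.H74.OneP
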