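import Pool.Agent.H74.OneP.Bal

/-! Module B3: the corner face of a dart at an interior vertex. -/

namespace Pool.Agent.H74.OneP

open Equiv Equiv.Perm Drawing

theorem b3 (hv : VisitStmt) (ht : TriStmt) : CornerStmt := by
  classical
  intro M G e he
  have r1 : ¬ M.cr e := (he e rfl).1
  have r1' : ¬ M.cr (M.rev e) := (he e rfl).2
  have r2 : ¬ M.cr (M.rot e) := (he _ (org_rot e)).1
  have r2' : ¬ M.cr (M.rev (M.rot e)) := (he _ (org_rot e)).2
  have hne : e ≠ M.rot e := (fun h => (hv M G).2 e r1 h.symm)
  have f1 : M.far e = M.rev e := far_of_not r1'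
  have f2 : M.far (M.rot e) = M.rev (M.rot e) := far_of_not r2'
  have hwp : M.org (M.rev e) ≠ M.org e := by rw [← f1]; exact G.no_loop r1
  have hwq : M.org (M.rev (M.rot e)) ≠ M.org e := by
    rw [← f2, ← org_rot e]; exact G.no_loop r2
  have hpq : M.org (M.rev e) ≠ M.org (M.rev (M.rot e)) := by
    intro h
    exact hne (G.no_multi r1 (org_rot e).symm (by rw [f1, f2]; exact h))
  have rn : ¬ M.cr (M.nxt e) := by rw [cr_congr (org_nxt e)]; exact r1'
  -- t on the face
  have hA : ∀ t, ¬ M.cr t → M.fac t = M.fac e →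
      M.org t = M.org e ∨ M.org t = M.org (M.rev e) ∨ M.org t = M.org (M.rev (M.rot e)) := by
    obtain ⟨k, hk, hk1, hk2⟩ := G.face (d := M.nxt e) (e := M.rev (M.rot e)) rn r2'
      (by rw [fac_nxt, fac_rev_rot]) (by rw [org_nxt]; exact hpq)
    obtain ⟨col, c1, c2, c3, c4, c5, c6⟩ := ht M G e (M.rot e) k he (org_rot e) hne hk
      (hk1.trans (org_nxt e)) hk2
    have hP : ∀ d, M.org d = M.org e → (d = e ∨ col d ≠ col e) := by
      intro d hd
      obtain ⟨n, hn⟩ := ((M.org_iff e d).1 hd.symm).exists_nat_pow_eq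
      have key : ∀ n : ℕ, M.org ((M.rot ^ n) e) = M.org e ∧
          ((M.rot ^ n) e = e ∨ col ((M.rot ^ n) e) ≠ col e) := by
        intro n
        induction n with
        | zero => exact ⟨rfl, Or.inl rfl⟩
        | succ n ih =>
          rw [pow_succ', Perm.mul_apply]
          set a := (M.rot ^ n) e with ha
          refine ⟨(org_rot a).trans ih.1, ?_⟩
          by_cases h1 : a = e
          · right
            rw [h1]
            have : col (M.rot⁻¹ (M.rot e)) = col e := by simp
            rw [this] at c4
            exact c4.symm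
          · by_cases h2 : M.rot a = e
            · exact Or.inl h2
            · right
              have h3 := (c2 (M.rot a) ((org_rot a).trans ih.1) h2
                (fun h => h1 (M.rot.injective h))).1
              have h4 : col (M.rot⁻¹ (M.rot a)) = col a := by simp
              rw [h4] at h3
              rw [← h3]
              exact ih.2.resolve_left h1
      rw [← hn]; exact (key n).2
    intro t htr hft
    by_contra hcon
    push Not at hcon
    obtain ⟨ht1, ht2, ht3⟩ := hcon
    obtain ⟨e', he'r, he'1, he'2⟩ := G.face (d := e) (e := t) r1 htr hft.symm (fun h => ht1 h.symm)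
    have fe' : M.far e' = M.rev e' := far_of_not (he e' he'1).2
    rw [fe'] at he'2
    have h1 : e' ≠ e := by rintro rfl; exact ht2 he'2.symm
    have h2 : e' ≠ M.rot e := by rintro rfl; exact ht3 he'2.symm
    have h3 := (c2 e' he'1 h1 h2).2
    have h4 := (hP e' he'1).resolve_left h1
    have h5 : col t = col e := const_of_nxt (p := M.fac e) (fun d _ => c1 d) hft rfl
    have h6 : col t = col (M.rev e') := by
      refine const_of_rot (p := M.org t) ?_ rfl he'2
      intro d hd
      refine (c5 d ?_ ?_ ?_ ?_).1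
      · rw [cr_congr hd]; exact htr
      · rw [hd]; exact ht1
      · rw [hd]; exact ht2
      · rw [hd]; exact ht3
    exact h4 (h3.symm.trans (h6.symm.trans h5))
  refine ⟨hA, ?_⟩
  have facn : M.fac (M.nxt e) = M.fac e := fac_nxt e
  by_cases hcr : M.cr (M.rev (M.nxt e))
  · right
    refine ⟨hcr, ?_⟩
    set a := M.nxt (M.nxt e) with ha
    have hacr : M.cr a := by rw [ha, cr_congr (org_nxt _)]; exact hcr
    have har : ¬ M.cr (M.nxt a) := by rw [cr_congr (org_nxt a)]; exact not_cr_rev hacr
    have haf : M.fac (M.nxt a) = M.fac e := by rw [fac_nxt, ha, fac_nxt, fac_nxt]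
    rcases hA _ har haf with h | h | h
    · exfalso
      have h1 : M.nxt a = e := (hv M G).1 _ _ har r1 haf h
      have h2 : M.nxt a = M.nxt (M.rev (M.rot e)) := by rw [h1, nxt_rev_rot]
      have h3 := M.nxt.injective h2
      rw [h3] at hacr; exact r2' hacr
    · exfalso
      have h1 : M.nxt a = M.nxt e := (hv M G).1 _ _ har rn (by rw [haf, facn])
        (by rw [h, org_nxt])
      have h2 := M.nxt.injective h1
      rw [h2] at hacr; exact r1 hacr
    · exact (hv M G).1 _ _ har r2' (by rw [haf, fac_rev_rot]) h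
  · left
    refine ⟨hcr, ?_⟩
    set a := M.nxt (M.nxt e) with ha
    have hacr : ¬ M.cr a := by rw [ha, cr_congr (org_nxt _)]; exact hcr
    have haf : M.fac a = M.fac e := by rw [ha, fac_nxt, fac_nxt]
    rcases hA _ hacr haf with h | h | h
    · exfalso
      have h1 : a = e := (hv M G).1 _ _ hacr r1 haf h
      have h2 : M.nxt (M.nxt e) = M.nxt (M.rev (M.rot e)) := by rw [← ha, h1, nxt_rev_rot]
      have h3 := M.nxt.injective h2
      apply hpq
      rw [← org_nxt e, h3]
    · exfalso
      have h1 : M.org (M.far (M.nxt e)) ≠ M.org (M.nxt e) := G.no_loop rn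
      rw [far_of_not hcr] at h1
      apply h1
      rw [← org_nxt (M.nxt e), ← ha, h, org_nxt]
    · exact (hv M G).1 _ _ hacr r2' (by rw [haf, fac_rev_rot]) h

end Pool.Agent.H74.OneP
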