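import Pool.Agent.H74.OneP.Bal

/-! Module B4: an interior vertex has degree at most four. -/

namespace Pool.Agent.H74.OneP

open Equiv Equiv.Perm Drawing

/-- different darts at an interior vertex lead to different vertices -/
theorem ends_inj {M : Drawing} (G : M.Good) {e a b : M.D} (he : inter e)
    (ha : M.org a = M.org e) (hb : M.org b = M.org e)
    (h : M.org (M.rev a) = M.org (M.rev b)) : a = b := by
  refine G.no_multi (he a ha).1 (ha.trans hb.symm) ?_
  rw [far_of_not (he a ha).2, far_of_not (he b hb).2]; exact h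

theorem ends_ne {M : Drawing} (G : M.Good) {e a : M.D} (he : inter e)
    (ha : M.org a = M.org e) : M.org (M.rev a) ≠ M.org e := by
  have := G.no_loop (he a ha).1
  rw [far_of_not (he a ha).2, ha] at this
  exact this

/-- neighbours at distance two around an interior vertex are adjacent -/
theorem adj_two {M : Drawing} (G : M.Good) (hv : VisitStmt) {e a : M.D} (he : inter e)
    (ha : M.org a = M.org e) (h2 : M.rot (M.rot a) ≠ a) :
    adj (M.org (M.rev a)) (M.org (M.rev (M.rot (M.rot a)))) := by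
  have h1 : M.rot a ≠ a := (hv M G).2 a (he a ha).1
  have oa1 : M.org (M.rot a) = M.org e := (org_rot a).trans ha
  have oa2 : M.org (M.rot (M.rot a)) = M.org e := (org_rot _).trans oa1
  have hn : M.nxt (M.rev (M.rot a)) = a := nxt_rev_rot a
  have hf : M.fac (M.nxt a) = M.fac (M.rev (M.rot a)) := by
    rw [fac_nxt, ← fac_nxt (M.rev (M.rot a)), hn]
  refine adj_symm ?_
  have key := G.across (k := M.rot a) (d := M.rev (M.rot (M.rot a))) (e := M.nxt a)
    (he _ oa1).1 (he _ oa1).2 (he _ oa2).2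
    (by rw [cr_congr (org_nxt a)]; exact (he a ha).2) (fac_rev_rot _) hf
    (by rw [oa1]; exact ends_ne G he oa2)
    (fun h => h1 (M.rot.injective (ends_inj G he oa2 oa1 h)))
    (by rw [org_nxt, oa1]; exact ends_ne G he ha)
    (by rw [org_nxt]; intro h; exact h1 (ends_inj G he oa1 ha h.symm))
    (by rw [org_nxt]; intro h; exact h2 (ends_inj G he oa2 ha h))
  rw [org_nxt] at key
  exact key

/-- the crossing claim -/
theorem cross_claim {M : Drawing} (G : M.Good) (hv : VisitStmt) (ht : TriStmt) {e a : M.D}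
    (he : inter e) (ha : M.org a = M.org e) (h2 : M.rot (M.rot a) ≠ a)
    (h3 : M.rot (M.rot (M.rot a)) ≠ a) :
    ∃ k l, ¬ M.cr k ∧ ¬ M.cr l ∧ M.cr (M.rev k) ∧ M.org k = M.org (M.rev a) ∧
      M.org (M.far k) = M.org (M.rev (M.rot (M.rot a))) ∧
      M.org l = M.org (M.rev (M.rot a)) ∧
      M.org (M.far l) = M.org (M.rev (M.rot (M.rot (M.rot a)))) ∧
      (M.rev l = M.rot (M.rev k) ∨ M.rev l = M.rot⁻¹ (M.rev k)) := by
  have h1 : M.rot a ≠ a := (hv M G).2 a (he a ha).1
  have oa1 : M.org (M.rot a) = M.org e := (org_rot a).trans ha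
  have oa2 : M.org (M.rot (M.rot a)) = M.org e := (org_rot _).trans oa1
  have oa3 : M.org (M.rot (M.rot (M.rot a))) = M.org e := (org_rot _).trans oa2
  have hia : inter a := by
    intro e' h'; exact he e' (h'.trans ha)
  obtain ⟨k, hk, hk1, hk2⟩ := adj_two G hv he ha h2
  obtain ⟨l, hl, hl1, hl2⟩ := adj_two G hv he oa1 (fun h => h2 (M.rot.injective h))
  obtain ⟨col, c1, c2, c3, c4, c5, c6⟩ := ht M G a (M.rot (M.rot a)) k hia (oa2.trans ha.symm)
    h2.symm hk hk1 hk2
  have g1 := c2 (M.rot a) (oa1.trans ha.symm) h1 (fun h => h1 (M.rot.injective h).symm)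
  have g3 := c2 (M.rot (M.rot (M.rot a))) (oa3.trans ha.symm) h3
    (fun h => h1 (M.rot.injective (M.rot.injective h)))
  have i2 : M.rot⁻¹ (M.rot (M.rot a)) = M.rot a := by simp
  have i3 : M.rot⁻¹ (M.rot (M.rot (M.rot a))) = M.rot (M.rot a) := by simp
  rw [i2] at c4
  rw [i3] at g3
  -- the points w₁, w₃ are not on the triangle
  have w1a : M.org (M.rev (M.rot a)) ≠ M.org a := by rw [ha]; exact ends_ne G he oa1
  have w1b : M.org (M.rev (M.rot a)) ≠ M.org (M.rev a) :=
    fun h => h1 (ends_inj G he oa1 ha h)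
  have w1c : M.org (M.rev (M.rot a)) ≠ M.org (M.rev (M.rot (M.rot a))) :=
    fun h => h1 (M.rot.injective (ends_inj G he oa1 oa2 h)).symm
  have w3a : M.org (M.rev (M.rot (M.rot (M.rot a)))) ≠ M.org a := by
    rw [ha]; exact ends_ne G he oa3
  have w3b : M.org (M.rev (M.rot (M.rot (M.rot a)))) ≠ M.org (M.rev a) :=
    fun h => h3 (ends_inj G he oa3 ha h)
  have w3c : M.org (M.rev (M.rot (M.rot (M.rot a)))) ≠ M.org (M.rev (M.rot (M.rot a))) :=
    fun h => h1 (M.rot.injective (M.rot.injective (ends_inj G he oa3 oa2 h)))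
  have cst : ∀ p : M.V ⊕ M.X, (∀ d, M.org d = p → ¬ M.cr d) → p ≠ M.org a → p ≠ M.org (M.rev a) →
      p ≠ M.org (M.rev (M.rot (M.rot a))) → ∀ d d', M.org d = p → M.org d' = p →
      col d = col d' := by
    intro p hp q1 q2 q3 d d' hd hd'
    refine const_of_rot (p := p) ?_ hd hd'
    intro x hx
    exact (c5 x (hp x hx) (by rw [hx]; exact q1) (by rw [hx]; exact q2)
      (by rw [hx]; exact q3)).1
  have hcr1 : ∀ d, M.org d = M.org (M.rev (M.rot a)) → ¬ M.cr d := by
    intro d hd; rw [cr_congr hd]; exact (he _ oa1).2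
  have hcr3 : ∀ d, M.org d = M.org (M.rev (M.rot (M.rot (M.rot a)))) → ¬ M.cr d := by
    intro d hd; rw [cr_congr hd]; exact (he _ oa3).2
  have k1 : col l = col (M.rot a) :=
    (cst _ hcr1 w1a w1b w1c l (M.rev (M.rot a)) hl1 rfl).trans g1.2
  have k3 : col (M.far l) = col (M.rot (M.rot (M.rot a))) :=
    (cst _ hcr3 w3a w3b w3c (M.far l) (M.rev (M.rot (M.rot (M.rot a)))) hl2 rfl).trans g3.2
  have h5 := (c5 l hl (by rw [hl1]; exact w1a) (by rw [hl1]; exact w1b)
    (by rw [hl1]; exact w1c)).2 (by rw [hl2]; exact w3a) (by rw [hl2]; exact w3b)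
    (by rw [hl2]; exact w3c)
  rcases h5 with h5 | h5
  · exfalso
    rw [k1, k3, ← g3.1] at h5
    exact c4 h5.symm
  · exact ⟨k, l, hk, hl, h5.1, hk1, hk2, hl1, hl2, h5.2⟩

theorem b4 (hv : VisitStmt) (ht : TriStmt) : DegStmt := by
  intro M G e he
  by_cases h2 : M.rot (M.rot e) = e
  · exact Or.inl h2
  by_cases h3 : M.rot (M.rot (M.rot e)) = e
  · exact Or.inr (Or.inl h3)
  right; right
  have o1 : M.org (M.rot e) = M.org e := org_rot e
  have o2 : M.org (M.rot (M.rot e)) = M.org e := (org_rot _).trans o1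
  have o3 : M.org (M.rot (M.rot (M.rot e))) = M.org e := (org_rot _).trans o2
  have o4 : M.org (M.rot (M.rot (M.rot (M.rot e)))) = M.org e := (org_rot _).trans o3
  obtain ⟨k, l, hk, hl, hck, k1, k2, l1, l2, hkl⟩ := cross_claim G hv ht he rfl h2 h3
  obtain ⟨k', l', hk', hl', hck', k1', k2', l1', l2', hkl'⟩ := cross_claim G hv ht he o1
    (fun h => h2 (M.rot.injective h)) (fun h => h3 (M.rot.injective h))
  have hkl2 : k' = l := G.no_multi hk' (k1'.trans l1.symm) (k2'.trans l2.symm)
  subst hkl2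
  have four := cr_four hck
  have i1 : M.rot⁻¹ (M.rev k) = M.rot (M.rot (M.rot (M.rev k))) := by
    have : M.rot⁻¹ (M.rot (M.rot (M.rot (M.rot (M.rev k))))) = M.rot (M.rot (M.rot (M.rev k))) := by
      simp
    rw [four] at this; exact this
  have hfk : M.far k = M.rev (M.rot (M.rot (M.rev k))) := far_of_cr hck
  have hfl : M.far k' = M.rev (M.rot (M.rot (M.rev k'))) := far_of_cr hck'
  refine ⟨?_, k, hck, k1, k2, ?_⟩
  · -- l' is k or far k
    have hl'k : M.rev l' = M.rev k ∨ M.rev l' = M.rot (M.rot (M.rev k)) := by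
      rcases hkl with h | h <;> rcases hkl' with h' | h'
      · right; rw [h', h]
      · left; rw [h', h]; simp
      · left; rw [h', h]; simp
      · right; rw [h', h, i1]; simp
    rcases hl'k with h | h
    · exfalso
      have : l' = k := M.rev.injective h
      rw [this, k1] at l1'
      exact h2 (ends_inj G he rfl o2 l1').symm
    · have hl'f : l' = M.far k := by rw [hfk, ← h]; simp
      rw [hl'f, far_far hk, k1] at l2'
      exact (ends_inj G he rfl o4 l2').symm
  · rcases hkl with h | h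
    · left
      constructor
      · rw [← h, rev_rev']; exact l1
      · rw [i1, ← h, ← hfl]; exact l2
    · right
      constructor
      · have : M.rot (M.rev k) = M.rot (M.rot (M.rev k')) := by rw [h]; simp
        rw [this, ← hfl]; exact l2
      · rw [← h, rev_rev']; exact l1

end Pool.Agent.H74.OneP
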