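import Pool.Agent.H74.OneP.Stmts

/-! Module B7: two-sided faces. -/

namespace Pool.Agent.H74.OneP

open Equiv Equiv.Perm Drawing

theorem b7 (hv : VisitStmt) : TwoStmt := by
  intro M G k hk hk' hall
  set n1 := M.nxt (M.rev k) with hn1
  have o1 : M.org n1 = M.org k := by rw [hn1, org_nxt, rev_rev']
  have r1 : ¬ M.cr n1 := by rw [cr_congr o1]; exact hk
  have f1 : M.fac n1 = M.fac (M.rev k) := fac_nxt _
  set n2 := M.nxt n1 with hn2
  have o2 : M.org n2 = M.org (M.rev n1) := org_nxt _
  have f2 : M.fac n2 = M.fac (M.rev k) := (fac_nxt _).trans f1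
  have hcr : M.cr (M.rev n1) := by
    by_contra hc
    have r2 : ¬ M.cr n2 := by rw [cr_congr o2]; exact hc
    have hf : M.far n1 = M.rev n1 := far_of_not hc
    rcases hall n2 r2 f2 with h | h
    · have := G.no_loop r1
      rw [hf, ← o2, h, o1] at this
      exact this rfl
    · have h1 : n1 = k := G.no_multi r1 o1 (by
        rw [hf, far_of_not hk', ← o2, h])
      have h2 : M.rot n1 = k := by rw [hn1, rot_nxt, rev_rev']
      rw [h1] at h2
      exact (hv M G).2 k hk h2
  right
  refine ⟨hk', hcr, ?_⟩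
  have c2 : M.cr n2 := by rw [cr_congr o2]; exact hcr
  have r3 : ¬ M.cr (M.nxt n2) := by rw [cr_congr (org_nxt _)]; exact not_cr_rev c2
  have f3 : M.fac (M.nxt n2) = M.fac (M.rev k) := (fac_nxt _).trans f2
  rcases hall _ r3 f3 with h | h
  · exfalso
    have h1 : M.nxt n2 = n1 := (hv M G).1 _ _ r3 r1 (f3.trans f1.symm) (h.trans o1.symm)
    have h2 : n2 = M.rev k := M.nxt.injective h1
    rw [h2] at c2; exact hk' c2
  · exact (hv M G).1 _ _ r3 hk' f3 h

end Pool.Agent.H74.OneP
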