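import Pool.Agent.H74.OneP.B10

/-! Module B9: adjacent interior vertices. -/

namespace Pool.Agent.H74.OneP

open Equiv Equiv.Perm Drawing

/-- first facts about a pair -/
theorem pair_first {M : Drawing} (G : M.Good) (hX : M.HasX) (hv : VisitStmt) (hco : CornerStmt)
    (hde : DegStmt) {e : M.D} (he : inter e) (he' : inter (M.rev e)) :
    M.nxt (M.nxt e) = M.rev (M.rot e) ∧ M.rot (M.rot e) ≠ e ∧ M.rot (M.rot (M.rot e)) = e := by
  have on : M.org (M.nxt e) = M.org (M.rev e) := org_nxt e
  have cn : ¬ M.cr (M.rev (M.nxt e)) := (he' _ on).2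
  have h1 : M.nxt (M.nxt e) = M.rev (M.rot e) := by
    rcases (hco M G e he).2 with h | h
    · exact h.2
    · exact absurd h.1 cn
  have o1 : M.org (M.rot e) = M.org e := org_rot e
  have hne : M.rot e ≠ e := (hv M G).2 e (he e rfl).1
  have h2 : M.rot (M.rot e) ≠ e := by
    intro h2
    have hr : inter (M.rot e) := fun a ha => he a (ha.trans o1)
    have h3 : M.nxt (M.nxt (M.rot e)) = M.rev e := by
      rcases (hco M G (M.rot e) hr).2 with h | h
      · rw [h.2, h2]
      · exfalso
        have h4 : M.nxt (M.nxt (M.nxt (M.rot e))) = M.rev e := by rw [h.2, h2]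
        have h5 : M.rot (M.rev e) = M.rev (M.nxt (M.nxt (M.rot e))) := by rw [← h4, rot_nxt]
        have h6 : M.cr (M.nxt (M.nxt (M.rot e))) := by rw [cr_congr (org_nxt _)]; exact h.1
        have h7 := (he' (M.rot (M.rev e)) (org_rot _)).2
        rw [h5, rev_rev'] at h7
        exact h7 h6
    have x1 : M.org (M.nxt (M.rot e)) = M.org (M.rev (M.rot e)) := org_nxt _
    have x2 : M.org (M.rev (M.nxt e)) = M.org (M.rev (M.rot e)) := by rw [← org_nxt, h1]
    have w1 : M.org (M.rev (M.nxt (M.rot e))) = M.org (M.rev e) := by rw [← org_nxt, h3]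
    have rx : ¬ M.cr (M.nxt (M.rot e)) := by rw [cr_congr x1]; exact (he _ o1).2
    have c1 : ¬ M.cr (M.rev (M.nxt (M.rot e))) := by
      rw [cr_congr w1]; exact (he' _ rfl).1
    have h4 : M.nxt (M.rot e) = M.rev (M.nxt e) := by
      refine G.no_multi rx (x1.trans x2.symm) ?_
      rw [far_of_not c1, far_of_not (by rw [rev_rev', cr_congr on]; exact (he' _ rfl).1),
        rev_rev', w1, on]
    have hs := M.conn ({e, M.rot e, M.rev e, M.rev (M.rot e), M.nxt e, M.rev (M.nxt e)} : Set M.D)
      ⟨e, by simp⟩ (by
        intro d hd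
        simp only [Set.mem_insert_iff, Set.mem_singleton_iff] at hd ⊢
        rcases hd with rfl | rfl | rfl | rfl | rfl | rfl
        · simp
        · rw [h2]; simp
        · have : M.rot (M.rev e) = M.nxt e := by
            rw [← h3, rot_nxt, h4, rev_rev']
          rw [this]; simp
        · have : M.rot (M.rev (M.rot e)) = M.rev (M.nxt e) := by rw [← h1, rot_nxt]
          rw [this]; simp
        · rw [rot_nxt]; simp
        · have : M.rot (M.rev (M.nxt e)) = M.rev (M.rot e) := by rw [← h4, rot_nxt]
          rw [this]; simp)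
    obtain ⟨c, hc⟩ := hX
    have hcs : c ∈ (Set.univ : Set M.D) := Set.mem_univ c
    rw [← hs] at hcs
    simp only [Set.mem_insert_iff, Set.mem_singleton_iff] at hcs
    rcases hcs with rfl | rfl | rfl | rfl | rfl | rfl
    · exact (he _ rfl).1 hc
    · exact (he _ o1).1 hc
    · exact (he _ rfl).2 hc
    · exact (he _ o1).2 hc
    · exact (he' _ on).1 hc
    · exact cn hc
  refine ⟨h1, h2, ?_⟩
  rcases hde M G e he with h | h | ⟨_, k, hk, hk1, _⟩
  · exact absurd h h2
  · exact h
  · exact absurd hk (he' k hk1).2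

theorem b9 (hv : VisitStmt) (hco : CornerStmt) (hde : DegStmt) (htw : TwoStmt)
    (hac : AcrossStmt) : PairStmt := by
  intro M G hX e he he'
  obtain ⟨n1, d2, d3⟩ := pair_first G hX hv hco hde he he'
  obtain ⟨n1', d2', d3'⟩ := pair_first G hX hv hco hde he' (by simpa using he)
  have on : M.org (M.nxt e) = M.org (M.rev e) := org_nxt e
  have on' : M.org (M.nxt (M.rev e)) = M.org e := by rw [org_nxt, rev_rev']
  have o1 : M.org (M.rot e) = M.org e := org_rot e
  have o2 : M.org (M.rot (M.rot e)) = M.org e := (org_rot _).trans o1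
  have o1' : M.org (M.rot (M.rev e)) = M.org (M.rev e) := org_rot _
  have o2' : M.org (M.rot (M.rot (M.rev e))) = M.org (M.rev e) := (org_rot _).trans o1'
  have q1 : M.rot (M.rot (M.rev e)) = M.nxt e := by
    apply M.rot.injective; rw [d3', rot_nxt]
  have q2 : M.rot (M.rot e) = M.nxt (M.rev e) := by
    apply M.rot.injective; rw [d3, rot_nxt, rev_rev']
  have hr : inter (M.rot e) := fun a ha => he a (ha.trans o1)
  have hrr : inter (M.rot (M.rot e)) := fun a ha => he a (ha.trans o2)
  have hr' : inter (M.rot (M.rev e)) := fun a ha => he' a (ha.trans o1')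
  have hne : M.rot e ≠ e := (hv M G).2 e (he e rfl).1
  have hne' : M.rot (M.rev e) ≠ M.rev e := (hv M G).2 _ (he' _ rfl).1
  have px : M.org (M.rev (M.nxt e)) = M.org (M.rev (M.rot e)) := by rw [← org_nxt, n1]
  have py : M.org (M.rev (M.rot (M.rev e))) = M.org (M.rev (M.rot (M.rot e))) := by
    rw [← n1', org_nxt, q2]
  have xy : M.org (M.rev (M.rot e)) ≠ M.org (M.rev (M.rot (M.rot e))) := fun h =>
    hne (M.rot.injective (ends_inj G he o1 o2 h)).symm
  have xw' : M.org (M.rev (M.rot e)) ≠ M.org (M.rev e) := fun h => hne (ends_inj G he o1 rfl h)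
  have yw' : M.org (M.rev (M.rot (M.rot e))) ≠ M.org (M.rev e) :=
    fun h => d2 (ends_inj G he o2 rfl h)
  have xw : M.org (M.rev (M.rot e)) ≠ M.org e := ends_ne G he o1
  have yw : M.org (M.rev (M.rot (M.rot e))) ≠ M.org e := ends_ne G he o2
  have d3r : M.rot (M.rot (M.rot (M.rot e))) = M.rot e := by rw [d3]
  -- the side (x, y)
  have hgs : gs (M.nxt (M.rot e)) := by
    by_contra hb
    obtain ⟨c1, m1, t, ht, htf, hto⟩ := bad_side G hX hco hac htw hr d3r hb
    rw [d3] at hto
    set l := M.nxt (M.rot e) with hl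
    have ol : M.org l = M.org (M.rev (M.rot e)) := org_nxt _
    have orl : M.org (M.rev l) = M.org (M.rev (M.rot (M.rot e))) := by rw [← org_nxt, m1]
    have rl : ¬ M.cr l := by rw [cr_congr ol]; exact (he _ o1).2
    have onl : M.org (M.nxt (M.rev l)) = M.org l := by rw [org_nxt, rev_rev']
    have rnl : ¬ M.cr (M.nxt (M.rev l)) := by rw [cr_congr onl]; exact rl
    have hit : inter t := fun a ha => he' a (ha.trans hto)
    have A := (hco M G t hit).1
    have Ay := A (M.rev l) c1 htf.symm
    have Ax := A (M.nxt (M.rev l)) rnl (by rw [fac_nxt, htf])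
    rw [orl, hto] at Ay
    rw [onl, ol, hto] at Ax
    have ht3 := three_darts (e := M.rev e) d3' hto
    have ht1 : t = M.rot (M.rev e) := by
      rcases ht3 with h | h | h
      · exfalso
        rw [h, rev_rev', py] at Ax
        rcases Ax with h | h | h
        · exact xw' h
        · exact xw h
        · exact xy h
      · exact h
      · exfalso
        rw [h, d3', rev_rev', q1, px] at Ay
        rcases Ay with h | h | h
        · exact yw' h
        · exact xy h.symm
        · exact yw h
    have hnt : M.nxt t = M.rev l := by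
      have r : M.org (M.nxt t) = M.org (M.rev l) := by
        rw [org_nxt, ht1, py, orl]
      exact (hv M G).1 _ _ (by rw [cr_congr r]; exact c1) c1 (by rw [fac_nxt, htf]) r
    have hnt2 : M.nxt (M.rev l) = M.rev (M.rot t) := by
      rcases (hco M G t hit).2 with h | h
      · rw [← hnt]; exact h.2
      · exfalso
        rw [hnt, rev_rev'] at h
        exact rl h.1
    rw [ht1] at hnt hnt2
    have hs := M.conn ({e, M.rot e, M.rot (M.rot e), M.rev e, M.rot (M.rev e),
      M.rot (M.rot (M.rev e)), M.rev (M.rot e), M.rev (M.rot (M.rot (M.rev e))), l,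
      M.rev (M.rot (M.rot e)), M.rev (M.rot (M.rev e)), M.rev l} : Set M.D)
      ⟨e, by simp⟩ (by
        intro d hd
        simp only [Set.mem_insert_iff, Set.mem_singleton_iff] at hd ⊢
        rcases hd with h | h | h | h | h | h | h | h | h | h | h | h
        · rw [h]; simp
        · rw [h]; simp
        · rw [h, d3]; simp
        · rw [h]; simp
        · rw [h]; simp
        · rw [h, d3']; simp
        · have : M.rot d = M.rev (M.rot (M.rot (M.rev e))) := by rw [h, ← n1, rot_nxt, q1]
          rw [this, h]; simp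
        · have : M.rot d = l := by rw [h, ← hnt2, rot_nxt, rev_rev']
          rw [this, h]; simp
        · have : M.rot d = M.rev (M.rot e) := by rw [h, hl, rot_nxt]
          rw [this, h]; simp
        · have : M.rot d = M.rev l := by rw [h, ← m1, rot_nxt]
          rw [this, h]; simp
        · have : M.rot d = M.rev (M.rot (M.rot e)) := by rw [h, ← n1', rot_nxt, q2]
          rw [this, h]; simp
        · have : M.rot d = M.rev (M.rot (M.rev e)) := by rw [h, ← hnt, rot_nxt]
          rw [this, h]; simp)
    obtain ⟨c, hc⟩ := hX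
    have hcs : c ∈ (Set.univ : Set M.D) := Set.mem_univ c
    rw [← hs] at hcs
    simp only [Set.mem_insert_iff, Set.mem_singleton_iff] at hcs
    rcases hcs with h | h | h | h | h | h | h | h | h | h | h | h <;> rw [h] at hc
    · exact (he _ rfl).1 hc
    · exact (he _ o1).1 hc
    · exact (he _ o2).1 hc
    · exact (he' _ rfl).1 hc
    · exact (he' _ o1').1 hc
    · exact (he' _ o2').1 hc
    · exact (he _ o1).2 hc
    · exact (he' _ o2').2 hc
    · exact rl hc
    · exact (he _ o2).2 hc
    · exact (he' _ o1').2 hc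
    · exact c1 hc
  refine ⟨d3, n1, hgs, ?_, ?_, ?_, ?_⟩
  · -- x is not interior
    intro hx
    set l := M.nxt (M.rot e) with hl
    have ol : M.org l = M.org (M.rev (M.rot e)) := org_nxt _
    rcases hgs with h | h
    · exact (hx l ol).2 h
    · exact (hx (M.nxt (M.rev l)) (by rw [org_nxt, rev_rev', ol])).2 h.2.1
  · -- y is not interior
    intro hy
    set l := M.nxt (M.rot e) with hl
    rcases hgs with h | h
    · rcases (hco M G _ hr).2 with h5 | h5
      · exact h5.1 h
      · have h6 : M.rot (M.rev (M.rot (M.rot e))) = M.rev (M.nxt l) := by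
          rw [← h5.2, rot_nxt]
        have h7 := (hy _ (org_rot _)).2
        rw [h6, rev_rev', cr_congr (org_nxt l)] at h7
        exact h7 h
    · rcases (hco M G _ hr).2 with h5 | h5
      · have h6 : M.rot (M.rev l) = M.rev (M.nxt (M.nxt (M.rev l))) := by
          conv_lhs => rw [← h.2.2]
          rw [rot_nxt]
        have h8 : M.org (M.rev l) = M.org (M.rev (M.rot (M.rot e))) := by
          rw [← org_nxt, h5.2]
        have h7 := (hy (M.rot (M.rev l)) (by rw [org_rot, h8])).2
        rw [h6, rev_rev', cr_congr (org_nxt _)] at h7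
        exact h7 h.2.1
      · exact h.1 h5.1
  · intro h
    rcases h with h | h
    · exact (he' _ on).2 h
    · exact (he' (M.nxt (M.rev (M.nxt e))) (by rw [org_nxt, rev_rev', on])).2 h.2.1
  · intro h
    set f := M.nxt (M.rot (M.rot e)) with hf
    have hT : ¬ M.cr (M.rev f) ∧ M.nxt f = M.rev e := by
      rcases (hco M G _ hrr).2 with h5 | h5
      · rw [d3] at h5; exact h5
      · exfalso
        rw [d3] at h5
        have h6 : M.rot (M.rev e) = M.rev (M.nxt f) := by rw [← h5.2, rot_nxt]
        have h7 := (he' _ (org_rot _)).2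
        rw [h6, rev_rev', cr_congr (org_nxt f)] at h7
        exact h7 h5.1
    rcases h with h | h
    · exact hT.1 h
    · have h6 : M.rot (M.rev f) = M.rev (M.nxt (M.nxt (M.rev f))) := by
        conv_lhs => rw [← h.2.2]
        rw [rot_nxt]
      have h8 : M.org (M.rev f) = M.org (M.rev e) := by rw [← org_nxt, hT.2]
      have h7 := (he' (M.rot (M.rev f)) (by rw [org_rot, h8])).2
      rw [h6, rev_rev', cr_congr (org_nxt _)] at h7
      exact h7 h.2.1

end Pool.Agent.H74.OneP
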