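import Pool.Agent.H74.OneP.Stmts

/-! Balanced functions: general lemmas for `Bal`. -/

namespace Pool.Agent.H74.OneP

open Equiv Equiv.Perm Drawing

theorem bal_pair {D : Type} [Fintype D] [DecidableEq D] {p : Perm D} {a b : D}
    (h : ∀ g : D → ZMod 2, (∀ d, g (p d) = g d) → g a = g b) :
    Bal p (Pi.single a 1 + Pi.single b 1 : D → ZMod 2) := by
  intro g hg
  have := h g hg
  simp only [Pi.add_apply, mul_add, Finset.sum_add_distrib]
  rw [Finset.sum_eq_single a, Finset.sum_eq_single b]
  · simp only [Pi.single_eq_same, mul_one]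
    rw [this]; exact CharTwo.add_self_eq_zero _
  · intro c _ hc; simp [Pi.single_eq_of_ne hc]
  · intro hb; exact absurd (Finset.mem_univ _) hb
  · intro c _ hc; simp [Pi.single_eq_of_ne hc]
  · intro hb; exact absurd (Finset.mem_univ _) hb

theorem bal_add {D : Type} [Fintype D] {p : Perm D} {f g : D → ZMod 2}
    (hf : Bal p f) (hg : Bal p g) : Bal p (f + g) := by
  intro u hu
  simp only [Pi.add_apply, mul_add, Finset.sum_add_distrib]
  rw [hf u hu, hg u hu, add_zero]

theorem bal_zero {D : Type} [Fintype D] {p : Perm D} : Bal p (0 : D → ZMod 2) := by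
  intro u _; simp

theorem inv_of_sameCycle {D : Type} {p : Perm D} {a b : D} (h : p.SameCycle a b)
    (g : D → ZMod 2) (hg : ∀ d, g (p d) = g d) : g a = g b := by
  obtain ⟨i, rfl⟩ := h
  have hinv : ∀ d, g (p⁻¹ d) = g d := fun d => by
    have := hg (p⁻¹ d); simpa using this.symm
  have : ∀ i : ℤ, ∀ d, g ((p ^ i) d) = g d := by
    intro i
    induction i using Int.induction_on with
    | zero => intro d; simp
    | succ n ih => intro d; rw [zpow_add_one, Perm.mul_apply, ih, hg]
    | pred n ih => intro d; rw [zpow_sub_one, Perm.mul_apply, ih, hinv]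
  exact (this i a).symm

theorem bal_rot {M : Drawing} [DecidableEq M.D] {a b : M.D} (h : M.org a = M.org b) :
    Bal M.rot (Pi.single a 1 + Pi.single b 1 : M.D → ZMod 2) :=
  bal_pair (fun g hg => inv_of_sameCycle ((M.org_iff a b).1 h) g hg)

theorem bal_nxt {M : Drawing} [DecidableEq M.D] {a b : M.D} (h : M.fac a = M.fac b) :
    Bal M.nxt (Pi.single a 1 + Pi.single b 1 : M.D → ZMod 2) :=
  bal_pair (fun g hg => inv_of_sameCycle ((M.fac_iff a b).1 h) g hg)

theorem bal_rev {M : Drawing} [DecidableEq M.D] (a : M.D) :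
    Bal M.rev (Pi.single a 1 + Pi.single (M.rev a) 1 : M.D → ZMod 2) :=
  bal_pair (fun _ hg => (hg a).symm)

theorem rotinv_rot {M : Drawing} (d : M.D) : M.rot⁻¹ (M.rot d) = d := by simp

/-- arithmetic in `ZMod 2` -/
theorem z2 : ∀ a b : ZMod 2, a + b = 1 → a ≠ b := by decide

theorem z2' : ∀ a b : ZMod 2, a + b = 0 → a = b := by decide

theorem z20 {a b : ZMod 2} (h : (0 : ZMod 2) = a + b) : b = a := (z2' a b h.symm).symm

theorem z21 {a b : ZMod 2} (h : (1 : ZMod 2) = a + b) : b ≠ a := fun h' =>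
  z2 a b h.symm h'.symm

end Pool.Agent.H74.OneP
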