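import Pool.Agent.H74.OneP.Defs

/-! Basic API for `Drawing`. -/

namespace Pool.Agent.H74.OneP

open Equiv Equiv.Perm

/-- number of cycles (fixed points included) of a permutation -/
noncomputable def orb {D : Type*} (p : Perm D) : ℕ := Nat.card (Quotient (SameCycle.setoid p))

/-- number of orbits of the group generated by two permutations -/
noncomputable def comps {D : Type*} (x y : Perm D) : ℕ :=
  Nat.card (Quotient (SameCycle.setoid x ⊔ SameCycle.setoid y))

/-- `h` is orthogonal to all `p`-invariant functions, i.e. has zero sum on every cycle of `p`. -/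
def Bal {D : Type*} [Fintype D] (p : Perm D) (h : D → ZMod 2) : Prop :=
  ∀ g : D → ZMod 2, (∀ d, g (p d) = g d) → ∑ d, g d * h d = 0

namespace Drawing

variable (M : Drawing)

instance : Finite M.V := M.finV
instance : Finite M.X := M.finX
instance : Finite M.F := M.finF
instance : Finite M.D := M.finD
noncomputable instance : Fintype M.V := Fintype.ofFinite _
noncomputable instance : Fintype M.X := Fintype.ofFinite _
noncomputable instance : Fintype M.F := Fintype.ofFinite _
noncomputable instance : Fintype M.D := Fintype.ofFinite _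

variable {M}

/-- simple, maximal, 2-connected -/
structure Good (M : Drawing) : Prop where
  simple : M.IsSimple
  maximal : M.IsMaximal
  conn2 : KConnected 2 M.graph

/-- the origin of `e` is an interior vertex: it is a vertex on no crossed edge -/
def inter (e : M.D) : Prop := ∀ e', M.org e' = M.org e → ¬ M.cr e' ∧ ¬ M.cr (M.rev e')

/-- adjacency of points -/
def adj (p q : M.V ⊕ M.X) : Prop := ∃ d : M.D, ¬ M.cr d ∧ M.org d = p ∧ M.org (M.far d) = q

/-- `M` has a crossing -/
def HasX (M : Drawing) : Prop := ∃ d, M.cr d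

/-- the side starting with the dart `k` leaving a vertex (in the face on its left) is either the
first half of a crossing corner, or an uncrossed edge behind which lies a two-sided face -/
def gs (k : M.D) : Prop :=
  M.cr (M.rev k) ∨ (¬ M.cr (M.rev k) ∧ M.cr (M.rev (M.nxt (M.rev k))) ∧
    M.nxt (M.nxt (M.nxt (M.rev k))) = M.rev k)

open Classical in
/-- the crossing dart belonging to the side `k` -/
noncomputable def kp (k : M.D) : M.D :=
  if M.cr (M.rev k) then M.nxt k else M.nxt (M.nxt (M.rev k))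

open Classical in
/-- the next dart leaving a vertex on the face of `k` -/
noncomputable def nx (k : M.D) : M.D :=
  if M.cr (M.rev k) then M.nxt (M.nxt k) else M.nxt k

theorem nxt_apply (d : M.D) : M.nxt d = M.rot⁻¹ (M.rev d) := rfl

@[simp] theorem rev_rev' (d : M.D) : M.rev (M.rev d) = d := M.rev_rev d

@[simp] theorem org_rot (d : M.D) : M.org (M.rot d) = M.org d :=
  (M.org_iff _ _).2 ((Equiv.Perm.sameCycle_apply_left).2 (SameCycle.refl _ _))

@[simp] theorem org_rotinv (d : M.D) : M.org (M.rot⁻¹ d) = M.org d := by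
  have h := org_rot (M := M) (M.rot⁻¹ d)
  simpa using h.symm

@[simp] theorem fac_nxt (d : M.D) : M.fac (M.nxt d) = M.fac d :=
  (M.fac_iff _ _).2 ((Equiv.Perm.sameCycle_apply_left).2 (SameCycle.refl _ _))

@[simp] theorem rot_nxt (d : M.D) : M.rot (M.nxt d) = M.rev d := by
  simp [nxt_apply]

theorem org_nxt (d : M.D) : M.org (M.nxt d) = M.org (M.rev d) := by
  rw [nxt_apply, org_rotinv]

/-- the dart before `d` on its face is `rev (rot d)` -/
theorem nxt_rev_rot (d : M.D) : M.nxt (M.rev (M.rot d)) = d := by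
  simp [nxt_apply]

@[simp] theorem fac_rev_rot (d : M.D) : M.fac (M.rev (M.rot d)) = M.fac d := by
  rw [← fac_nxt (M.rev (M.rot d)), nxt_rev_rot]

theorem not_cr_iff (d : M.D) : ¬ M.cr d ↔ ∃ v, M.org d = Sum.inl v := by
  constructor
  · intro h
    cases hd : M.org d with
    | inl v => exact ⟨v, rfl⟩
    | inr x => exact absurd ⟨x, hd⟩ h
  · rintro ⟨v, hv⟩ ⟨x, hx⟩
    rw [hv] at hx; cases hx

theorem cr_congr {d e : M.D} (h : M.org d = M.org e) : M.cr d ↔ M.cr e := by
  unfold cr; rw [h]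

@[simp] theorem cr_rot (d : M.D) : M.cr (M.rot d) ↔ M.cr d := cr_congr (org_rot d)
@[simp] theorem cr_rotinv (d : M.D) : M.cr (M.rot⁻¹ d) ↔ M.cr d := cr_congr (org_rotinv d)

/-- a function on darts which is invariant under `rot` at a point is constant there -/
theorem const_of_rot {β : Type*} {f : M.D → β} {p : M.V ⊕ M.X}
    (h : ∀ d, M.org d = p → f (M.rot d) = f d) {d e : M.D} (hd : M.org d = p) (he : M.org e = p) :
    f d = f e := by
  obtain ⟨i, hi⟩ := ((M.org_iff d e).1 (hd.trans he.symm)).exists_nat_pow_eq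
  have key : ∀ n : ℕ, M.org ((M.rot ^ n) d) = p ∧ f ((M.rot ^ n) d) = f d := by
    intro n
    induction n with
    | zero => exact ⟨hd, rfl⟩
    | succ n ih =>
      rw [pow_succ', Equiv.Perm.mul_apply]
      exact ⟨(org_rot _).trans ih.1, (h _ ih.1).trans ih.2⟩
  rw [← hi]; exact (key i).2.symm

/-- a function on darts which is invariant under `nxt` on a face is constant there -/
theorem const_of_nxt {β : Type*} {f : M.D → β} {p : M.F}
    (h : ∀ d, M.fac d = p → f (M.nxt d) = f d) {d e : M.D} (hd : M.fac d = p) (he : M.fac e = p) :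
    f d = f e := by
  obtain ⟨i, hi⟩ := ((M.fac_iff d e).1 (hd.trans he.symm)).exists_nat_pow_eq
  have key : ∀ n : ℕ, M.fac ((M.nxt ^ n) d) = p ∧ f ((M.nxt ^ n) d) = f d := by
    intro n
    induction n with
    | zero => exact ⟨hd, rfl⟩
    | succ n ih =>
      rw [pow_succ', Equiv.Perm.mul_apply]
      exact ⟨(fac_nxt _).trans ih.1, (h _ ih.1).trans ih.2⟩
  have hi' : (M.nxt ^ i) d = e := hi
  rw [← hi']; exact (key i).2.symm

theorem not_cr_rev {d : M.D} (h : M.cr d) : ¬ M.cr (M.rev d) := by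
  obtain ⟨x, hx⟩ := h
  exact (not_cr_iff _).2 (M.cross_rev d x hx)

theorem not_cr_of_cr_rev {d : M.D} (h : M.cr (M.rev d)) : ¬ M.cr d := by
  have := not_cr_rev h; simpa using this

theorem cr_four {d : M.D} (h : M.cr d) : M.rot (M.rot (M.rot (M.rot d))) = d := by
  obtain ⟨x, hx⟩ := h; exact M.cross_four d x hx

theorem cr_two {d : M.D} (h : M.cr d) : M.rot (M.rot d) ≠ d := by
  obtain ⟨x, hx⟩ := h; exact M.cross_two d x hx

theorem far_of_not {d : M.D} (h : ¬ M.cr (M.rev d)) : M.far d = M.rev d := by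
  unfold far; rw [if_neg h]

theorem far_of_cr {d : M.D} (h : M.cr (M.rev d)) : M.far d = M.rev (M.rot (M.rot (M.rev d))) := by
  unfold far; rw [if_pos h]

theorem cr_kp {k : M.D} (h : gs k) : M.cr (kp k) := by
  unfold gs at h
  unfold kp
  split_ifs with hk
  · rw [nxt_apply, cr_rotinv]; exact hk
  · rcases h with h | h
    · exact absurd h hk
    · rw [nxt_apply, cr_rotinv]; exact h.2.1

theorem not_cr_far {d : M.D} (h : ¬ M.cr d) : ¬ M.cr (M.far d) := by
  by_cases h' : M.cr (M.rev d)
  · rw [far_of_cr h']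
    exact not_cr_rev (by simpa using h')
  · rw [far_of_not h']; exact h'

theorem far_far {d : M.D} (h : ¬ M.cr d) : M.far (M.far d) = d := by
  by_cases h' : M.cr (M.rev d)
  · rw [far_of_cr h', far_of_cr (by simpa using h')]
    simp [cr_four h']
  · rw [far_of_not h', far_of_not (by simpa using h)]
    simp

theorem adj_symm {p q : M.V ⊕ M.X} (h : adj p q) : adj q p := by
  obtain ⟨d, h1, h2, h3⟩ := h
  exact ⟨M.far d, not_cr_far h1, h3, by rw [far_far h1]; exact h2⟩

theorem graph_adj_iff {u v : M.V} (h : M.IsSimple) :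
    M.graph.Adj u v ↔ adj (M := M) (Sum.inl u) (Sum.inl v) := by
  unfold graph
  rw [SimpleGraph.fromRel_adj]
  constructor
  · rintro ⟨_, ⟨d, h1, h2⟩ | ⟨d, h1, h2⟩⟩
    · exact ⟨d, (not_cr_iff _).2 ⟨_, h1⟩, h1, h2⟩
    · exact adj_symm ⟨d, (not_cr_iff _).2 ⟨_, h1⟩, h1, h2⟩
  · rintro ⟨d, h1, h2, h3⟩
    refine ⟨?_, Or.inl ⟨d, h2, h3⟩⟩
    rintro rfl
    exact h.no_loop d u h2 h3

namespace Good

variable (G : M.Good)
include G

theorem no_loop {d : M.D} (h : ¬ M.cr d) : M.org (M.far d) ≠ M.org d := by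
  obtain ⟨u, hu⟩ := (not_cr_iff _).1 h
  rw [hu]; exact G.simple.no_loop d u hu

theorem no_multi {d e : M.D} (h : ¬ M.cr d) (h1 : M.org d = M.org e)
    (h2 : M.org (M.far d) = M.org (M.far e)) : d = e := by
  obtain ⟨u, hu⟩ := (not_cr_iff _).1 h
  obtain ⟨v, hv⟩ := (not_cr_iff _).1 (not_cr_far h)
  exact G.simple.no_multi d e u v hu (h1 ▸ hu) hv (h2 ▸ hv)

/-- two vertices on a common face are equal or adjacent -/
theorem face {d e : M.D} (hd : ¬ M.cr d) (he : ¬ M.cr e) (hf : M.fac d = M.fac e)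
    (hn : M.org d ≠ M.org e) : adj (M.org d) (M.org e) := by
  obtain ⟨u, hu⟩ := (not_cr_iff _).1 hd
  obtain ⟨v, hv⟩ := (not_cr_iff _).1 he
  have := G.maximal.face d e u v hu hv hf (by rintro rfl; exact hn (hu.trans hv.symm))
  rw [graph_adj_iff G.simple] at this
  rw [hu, hv]; exact this

theorem across {k d e : M.D} (hk : ¬ M.cr k) (hk' : ¬ M.cr (M.rev k)) (hd : ¬ M.cr d)
    (he : ¬ M.cr e) (hfd : M.fac d = M.fac k) (hfe : M.fac e = M.fac (M.rev k))
    (h1 : M.org d ≠ M.org k) (h2 : M.org d ≠ M.org (M.rev k))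
    (h3 : M.org e ≠ M.org k) (h4 : M.org e ≠ M.org (M.rev k))
    (hn : M.org d ≠ M.org e) : adj (M.org d) (M.org e) := by
  obtain ⟨u, hu⟩ := (not_cr_iff _).1 hd
  obtain ⟨v, hv⟩ := (not_cr_iff _).1 he
  rw [hu] at h1 h2 hn ⊢
  rw [hv] at h3 h4 hn ⊢
  have := G.maximal.across k d e u v hk hk' hu hv hfd hfe h1.symm h2.symm h3.symm h4.symm
    (by rintro rfl; exact hn rfl)
  rwa [graph_adj_iff G.simple] at this

end Good

/-- crossing darts -/
def XD (M : Drawing) : Type := {d : M.D // M.cr d}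

instance : Finite M.XD := Subtype.finite
noncomputable instance : Fintype M.XD := Fintype.ofFinite _

/-- the rotation of the crossing darts at the crossing points -/
def rho (M : Drawing) : Perm M.XD := M.rot.subtypePerm (fun d => (cr_rot d))

/-- `τ` is the clockwise rotation of the crossed edges around the vertices, transported to the
crossing darts `x` (which lead from a crossing point to the vertex `org (rev x)`) -/
structure IsTau (τ : Perm M.XD) : Prop where
  same : ∀ x y, τ.SameCycle x y ↔ M.org (M.rev x.1) = M.org (M.rev y.1)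
  step : ∀ x, ∃ j, 0 < j ∧ (M.rot⁻¹ ^ j) (M.rev x.1) = M.rev (τ x).1 ∧
    ∀ i, 0 < i → i < j → ¬ M.cr (M.rev ((M.rot⁻¹ ^ i) (M.rev x.1)))

/-- the uncrossed dart `u` lies in the corner clockwise after the crossed edge of `x` -/
def Trav (x : M.XD) (u : M.D) : Prop :=
  ∃ i, 0 < i ∧ (M.rot⁻¹ ^ i) (M.rev x.1) = u ∧
    ∀ j, 0 < j → j ≤ i → ¬ M.cr (M.rev ((M.rot⁻¹ ^ j) (M.rev x.1)))

/-- `b` is reached from `a` rotating clockwise over uncrossed darts satisfying `P` -/
inductive LkP (P : M.D → Prop) : M.D → M.D → Prop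
  | refl (a : M.D) : LkP P a a
  | step (a b : M.D) : ¬ M.cr a → ¬ M.cr (M.rev a) → P a → LkP P (M.rot⁻¹ a) b → LkP P a b

end Drawing

/-- The abstract kernel: `ρ` rotation at crossing points, `τ` rotation at vertices. -/
structure IsKernel {X : Type} (ρ τ : Perm X) : Prop where
  four : ∀ x, ρ (ρ (ρ (ρ x))) = x
  k1 : ∀ x, ¬ τ.SameCycle x (ρ x)
  k2 : ∀ x, ¬ τ.SameCycle x (ρ (ρ x))
  k3 : ∀ x y, τ.SameCycle x y → τ.SameCycle (ρ (ρ x)) (ρ (ρ y)) → x = y

end Pool.Agent.H74.OneP
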