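import Mathlib

/-!
# Maximal 1-plane graphs: combinatorial model

A 1-plane graph with connected planarization is described by its planarization, a map on the
sphere: vertices `V`, crossing points `X`, faces `F` and darts `D` (half-segments, each leaving a
point, i.e. a vertex or a crossing point).
-/

namespace Pool.Agent.H74.OneP

open Equiv Equiv.Perm

/-- A drawing of a graph on the sphere, given by its planarization. -/
structure Drawing where
  /-- vertices -/
  V : Type
  /-- crossing points -/
  X : Type
  /-- faces of the planarization -/
  F : Type
  /-- darts: directed segments of the planarization -/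
  D : Type
  finV : Finite V
  finX : Finite X
  finF : Finite F
  finD : Finite D
  /-- the point (vertex or crossing point) from which the dart leaves -/
  org : D → V ⊕ X
  /-- the face on the left of the dart -/
  fac : D → F
  /-- the next dart counterclockwise around the same point -/
  rot : Equiv.Perm D
  /-- the same segment in the opposite direction -/
  rev : Equiv.Perm D
  org_surj : Function.Surjective org
  fac_surj : Function.Surjective fac
  org_iff : ∀ d e, org d = org e ↔ rot.SameCycle d e
  fac_iff : ∀ d e, fac d = fac e ↔ (rot⁻¹ * rev).SameCycle d e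
  rev_rev : ∀ d, rev (rev d) = d
  rev_ne : ∀ d, rev d ≠ d
  /-- the planarization is connected -/
  conn : ∀ s : Set D, s.Nonempty → (∀ d ∈ s, rot d ∈ s ∧ rev d ∈ s) → s = Set.univ
  /-- Euler's formula: the surface is the sphere -/
  euler : 2 * (Nat.card V + Nat.card X + Nat.card F) = Nat.card D + 4
  /-- exactly four segments meet in a crossing point -/
  cross_four : ∀ d x, org d = Sum.inr x → rot (rot (rot (rot d))) = d
  cross_two : ∀ d x, org d = Sum.inr x → rot (rot d) ≠ d
  /-- a segment leaving a crossing point ends in a vertex (an edge is crossed at most once) -/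
  cross_rev : ∀ d x, org d = Sum.inr x → ∃ v, org (rev d) = Sum.inl v

namespace Drawing

variable (M : Drawing)

/-- the dart leaves a crossing point -/
def cr (d : M.D) : Prop := ∃ x, M.org d = Sum.inr x

/-- the next dart along the boundary of the face on the left -/
def nxt : Equiv.Perm M.D := M.rot⁻¹ * M.rev

open Classical in
/-- For a dart `d` leaving a vertex along an edge, the dart leaving the other end of that edge:
if the segment of `d` ends in a crossing point, one goes straight on there. -/
noncomputable def far (d : M.D) : M.D :=
  if M.cr (M.rev d) then M.rev (M.rot (M.rot (M.rev d))) else M.rev d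

/-- The graph that is drawn. -/
def graph : SimpleGraph M.V :=
  SimpleGraph.fromRel fun u v => ∃ d, M.org d = Sum.inl u ∧ M.org (M.far d) = Sum.inl v

/-- No loops, no multiple edges, and edges with a common end do not cross. -/
structure IsSimple : Prop where
  no_loop : ∀ d u, M.org d = Sum.inl u → M.org (M.far d) ≠ Sum.inl u
  no_multi : ∀ d e u v, M.org d = Sum.inl u → M.org e = Sum.inl u →
    M.org (M.far d) = Sum.inl v → M.org (M.far e) = Sum.inl v → d = e
  cross_ends : ∀ d, M.cr d → M.org (M.rev d) ≠ M.org (M.rev (M.rot d))

/-- No edge joining two non-adjacent vertices can be added: neither inside a face (`face`), nor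
with one crossing through an uncrossed edge (the segment of `k`) from the face on one side of it
to the face on the other side (`across`; the new edge shares no end with the crossed one). -/
structure IsMaximal : Prop where
  face : ∀ d e u v, M.org d = Sum.inl u → M.org e = Sum.inl v → M.fac d = M.fac e → u ≠ v →
    M.graph.Adj u v
  across : ∀ k d e u v, ¬ M.cr k → ¬ M.cr (M.rev k) →
    M.org d = Sum.inl u → M.org e = Sum.inl v → M.fac d = M.fac k → M.fac e = M.fac (M.rev k) →
    M.org k ≠ Sum.inl u → M.org (M.rev k) ≠ Sum.inl u →
    M.org k ≠ Sum.inl v → M.org (M.rev k) ≠ Sum.inl v → u ≠ v → M.graph.Adj u v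

end Drawing

/-- `G` is `k`-connected. -/
def KConnected {V : Type} (k : ℕ) (G : SimpleGraph V) : Prop :=
  k < Nat.card V ∧ ∀ S : Finset V, S.card < k → (G.induce {v | v ∉ S}).Connected

/-- There is a maximal 1-plane graph of order `n` with connectivity exactly 2 and `c` crossings. -/
def Realizable (n c : ℕ) : Prop :=
  ∃ M : Drawing, M.IsSimple ∧ M.IsMaximal ∧ KConnected 2 M.graph ∧ ¬ KConnected 3 M.graph ∧
    Nat.card M.V = n ∧ Nat.card M.X = c

/-- The minimum number of crossings for order `n ≥ 6`. -/
def c2 (n : ℕ) : ℕ :=
  if n ≤ 29 then (n + 5) / 5 else if n ≤ 32 then 6 else if n ≤ 35 then 7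
  else if n ≤ 37 then 8 else (n + 2) / 5

end Pool.Agent.H74.OneP
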