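import Pool.Agent.H15.OneP.C6
import Pool.Agent.H21.OneP.B11
import Pool.Agent.H21.OneP.C8
import Pool.Agent.H28.OneP.C1
import Pool.Agent.H28.OneP.C2
import Pool.Agent.H28.OneP.C3
import Pool.Agent.H28.OneP.C4
import Pool.Agent.H28.OneP.C5
import Pool.Agent.H28.OneP.C9
import Pool.Agent.H28.OneP.E2
import Pool.Agent.H30.OneP.U9
import Pool.Agent.H36.OneP.U10
import Pool.Agent.H38.OneP.U2
import Pool.Agent.H38.OneP.U3
import Pool.Agent.H41.OneP.B5
import Pool.Agent.H41.OneP.B6
import Pool.Agent.H41.OneP.B8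
import Pool.Agent.H41.OneP.C7
import Pool.Agent.H41.OneP.U6
import Pool.Agent.H41.OneP.U7
import Pool.Agent.H41.OneP.U8
import Pool.Agent.H64.OneP.U11
import Pool.Agent.H64.OneP.U12
import Pool.Agent.H64.OneP.U13
import Pool.Agent.H74.OneP.B1
import Pool.Agent.H74.OneP.B10
import Pool.Agent.H74.OneP.B2
import Pool.Agent.H74.OneP.B3
import Pool.Agent.H74.OneP.B4
import Pool.Agent.H74.OneP.B7
import Pool.Agent.H74.OneP.B9
import Pool.Agent.H80.OneP.Cyc
import Pool.Agent.H80.OneP.D5
import Pool.Agent.H91.OneP.C10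
import Pool.Agent.H91.OneP.E1
import Pool.Agent.H92.OneP.A1
import Pool.Agent.H92.OneP.A2
import Pool.Agent.H92.OneP.U0
import Pool.Agent.H92.OneP.U1
import Pool.Agent.H93.OneP.D4
import Pool.Agent.H93.OneP.U14
import Pool.Agent.H93.OneP.U15
import Pool.Agent.H93.OneP.U16
import Pool.Agent.H94.OneP.U4
import Pool.Agent.H94.OneP.U5
import Pool.Agent.H97.OneP.E3
import Pool.Agent.H74.OneP.Asm

/-! Assembly of the modules of project ONEP. -/

namespace Pool.Agent.H74.OneP

theorem visit : VisitStmt := b1 (a2 a1)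
theorem tri : TriStmt := b2 (a2 a1)
theorem corner : CornerStmt := b3 visit tri
theorem deg : DegStmt := b4 visit tri
theorem opp : OppStmt := b5 tri
theorem across : AcrossStmt := b6 visit corner
theorem two : TwoStmt := b7 visit
theorem even : EvenStmt := b8 across two opp corner
theorem pair : PairStmt := b9 visit corner deg two across
theorem twoBad : TwoBadStmt := b10 (a2 a1) visit corner across two
theorem bad : BadStmt :=
  Pool.Agent.H21.OneP.b11 visit tri corner deg across two even twoBad
theorem full : FullStmt := c6 c5 corner deg visit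
theorem pairOrb : PairOrbStmt := c7 c5 corner pair
theorem badOrb : BadOrbStmt := Pool.Agent.H21.OneP.c8 c5 bad corner visit
theorem orbT : OrbStmt := c9 full pairOrb badOrb pair bad
theorem emptyT : EmptyStmt := c10 orbT
theorem kEuler : KEulerStmt := c3 a1 (a2 a1)
theorem dd1 : D1Stmt := Pool.Agent.H80.OneP.d1
theorem dd2 : D2Stmt := Pool.Agent.H80.OneP.d2 dd1
theorem dd3 : D3Stmt := Pool.Agent.H80.OneP.d3 a1 dd1
theorem dd4 : D4Stmt := d4 dd1
theorem dd6 : D6Stmt := Pool.Agent.H80.OneP.d5 dd1
theorem low : LowStmt := e1 c1 c2' kEuler c4 orbT emptyT dd2 dd3 dd4 dd6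
theorem small : SmallStmt := e2 c1 c2' kEuler c4 orbT even dd1 dd2 visit
theorem planar : PlanarStmt := e3 visit corner deg
theorem lower : LowerStmt := e4 low small planar

theorem exact : ExactStmt := u1 a1
theorem fill : FillStmt := u9 exact u4 (u5 u0) u6 (u7 visit) u8
theorem skelBase : SkelBaseStmt := u10 exact u2 (u3 u0)
theorem upper : UpperStmt :=
  u17 fill skelBase u11 u12 u13 (u14 exact u0) (u15 exact u0)
theorem triangle : TriangleStmt := u16 exact u0

theorem main : MainStmt := main_of triangle upper lower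

end Pool.Agent.H74.OneP
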