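import Pool.Agent.H74.OneP.Basic

/-! Statements of the modules (lower bound part). -/

namespace Pool.Agent.H74.OneP

open Equiv Equiv.Perm Drawing

/-! ### A. Linear algebra -/

/-- A1 -/
def HypStmt : Prop := ∀ (D : Type) [Fintype D] (x y : Perm D),
  orb x + orb y + orb (x * y) ≤ Fintype.card D + 2 * comps x y ∧
  (orb x + orb y + orb (x * y) = Fintype.card D + 2 * comps x y ↔
    ∀ h : D → ZMod 2, Bal x h → Bal y h →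
      ∃ g : D → ZMod 2, (∀ d, g (x (y d)) = g d) ∧ ∀ d, h d = g d + g (x d))

/-- A2 (from A1): closed curves in a drawing -/
def CurveStmt : Prop := ∀ (M : Drawing),
  (∀ h : M.D → ZMod 2, Bal M.rot h → Bal M.rev h →
    ∃ g : M.D → ZMod 2, (∀ d, g (M.nxt d) = g d) ∧ ∀ d, h d = g d + g (M.rot⁻¹ d)) ∧
  (∀ h : M.D → ZMod 2, Bal M.rot h → Bal M.nxt h →
    ∃ g : M.D → ZMod 2, (∀ d, g (M.rev d) = g d) ∧ ∀ d, h d = g d + g (M.rot d))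

/-! ### B. Local structure -/

/-- B1: a face visits a vertex at most once; degrees are at least two -/
def VisitStmt : Prop := ∀ (M : Drawing), M.Good →
  (∀ d e, ¬ M.cr d → ¬ M.cr e → M.fac d = M.fac e → M.org d = M.org e → d = e) ∧
  (∀ d, ¬ M.cr d → M.rot d ≠ d)

/-- B2: the triangle `w, p, q` with `w` interior (`e₁ : w → p`, `e₂ : w → q`, `k : p → q`)
two-colours the faces -/
def TriStmt : Prop := ∀ (M : Drawing), M.Good → ∀ e₁ e₂ k : M.D,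
  inter e₁ → M.org e₂ = M.org e₁ → e₁ ≠ e₂ → ¬ M.cr k →
  M.org k = M.org (M.rev e₁) → M.org (M.far k) = M.org (M.rev e₂) →
  ∃ col : M.D → ZMod 2, (∀ d, col (M.nxt d) = col d) ∧
    (∀ d, M.org d = M.org e₁ → d ≠ e₁ → d ≠ e₂ → col (M.rot⁻¹ d) = col d ∧
      col (M.rev d) = col d) ∧
    col (M.rot⁻¹ e₁) ≠ col e₁ ∧ col (M.rot⁻¹ e₂) ≠ col e₂ ∧
    (∀ d, ¬ M.cr d → M.org d ≠ M.org e₁ → M.org d ≠ M.org (M.rev e₁) →
      M.org d ≠ M.org (M.rev e₂) → col (M.rot d) = col d ∧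
      (M.org (M.far d) ≠ M.org e₁ → M.org (M.far d) ≠ M.org (M.rev e₁) →
        M.org (M.far d) ≠ M.org (M.rev e₂) → col (M.far d) = col d ∨
          (M.cr (M.rev k) ∧ (M.rev d = M.rot (M.rev k) ∨ M.rev d = M.rot⁻¹ (M.rev k))))) ∧
    (¬ M.cr (M.rev k) → col (M.rev k) ≠ col k)

/-- B3: the face in the corner after a dart `e` at an interior vertex -/
def CornerStmt : Prop := ∀ (M : Drawing), M.Good → ∀ e : M.D, inter e →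
  (∀ t, ¬ M.cr t → M.fac t = M.fac e →
    M.org t = M.org e ∨ M.org t = M.org (M.rev e) ∨ M.org t = M.org (M.rev (M.rot e))) ∧
  ((¬ M.cr (M.rev (M.nxt e)) ∧ M.nxt (M.nxt e) = M.rev (M.rot e)) ∨
    (M.cr (M.rev (M.nxt e)) ∧ M.nxt (M.nxt (M.nxt e)) = M.rev (M.rot e)))

/-- B4: an interior vertex has degree 2, 3 or 4, and in the last case its neighbours span a
crossing -/
def DegStmt : Prop := ∀ (M : Drawing), M.Good → ∀ e : M.D, inter e →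
  M.rot (M.rot e) = e ∨ M.rot (M.rot (M.rot e)) = e ∨
  (M.rot (M.rot (M.rot (M.rot e))) = e ∧ ∃ k, M.cr (M.rev k) ∧
    M.org k = M.org (M.rev e) ∧ M.org (M.far k) = M.org (M.rev (M.rot (M.rot e))) ∧
    ((M.org (M.rev (M.rot (M.rev k))) = M.org (M.rev (M.rot e)) ∧
      M.org (M.rev (M.rot⁻¹ (M.rev k))) = M.org (M.rev (M.rot (M.rot (M.rot e))))) ∨
     (M.org (M.rev (M.rot (M.rev k))) = M.org (M.rev (M.rot (M.rot (M.rot e)))) ∧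
      M.org (M.rev (M.rot⁻¹ (M.rev k))) = M.org (M.rev (M.rot e)))))

/-- B5: opposite neighbours of an interior vertex of degree 4 have no common face -/
def OppStmt : Prop := ∀ (M : Drawing), M.Good → ∀ e : M.D, inter e →
  M.rot (M.rot (M.rot (M.rot e))) = e → M.rot (M.rot e) ≠ e →
  ∀ a b, ¬ M.cr a → ¬ M.cr b → M.fac a = M.fac b → M.org a = M.org (M.rev e) →
    M.org b = M.org (M.rev (M.rot (M.rot e))) → False

/-- B6: vertices on the face behind the uncrossed edge opposite to an interior vertex -/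
def AcrossStmt : Prop := ∀ (M : Drawing), M.Good → M.HasX → ∀ e : M.D, inter e →
  ¬ M.cr (M.rev (M.nxt e)) → ∀ t, ¬ M.cr t → M.fac t = M.fac (M.rev (M.nxt e)) →
    M.org t = M.org (M.rev e) ∨ M.org t = M.org (M.rev (M.rot e)) ∨
    ∃ e', M.org e' = M.org e ∧ e' ≠ e ∧ e' ≠ M.rot e ∧ M.org t = M.org (M.rev e')

/-- B7: a face containing an uncrossed side and no third vertex is two-sided -/
def TwoStmt : Prop := ∀ (M : Drawing), M.Good → ∀ k : M.D, ¬ M.cr k → ¬ M.cr (M.rev k) →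
  (∀ t, ¬ M.cr t → M.fac t = M.fac (M.rev k) → M.org t = M.org k ∨ M.org t = M.org (M.rev k)) →
  gs k

/-- B8: degree 2 and degree 4 -/
def EvenStmt : Prop := ∀ (M : Drawing), M.Good → M.HasX → ∀ e : M.D, inter e →
  (M.rot (M.rot e) = e ∨ (M.rot (M.rot (M.rot (M.rot e))) = e ∧ M.rot (M.rot e) ≠ e)) →
  gs (M.nxt e)

/-- B9: adjacent interior vertices -/
def PairStmt : Prop := ∀ (M : Drawing), M.Good → M.HasX → ∀ e : M.D, inter e → inter (M.rev e) →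
  M.rot (M.rot (M.rot e)) = e ∧ M.nxt (M.nxt e) = M.rev (M.rot e) ∧ gs (M.nxt (M.rot e)) ∧
  ¬ inter (M.rev (M.rot e)) ∧ ¬ inter (M.rev (M.rot (M.rot e))) ∧
  ¬ gs (M.nxt e) ∧ ¬ gs (M.nxt (M.rot (M.rot e)))

/-- B10: two consecutive sides of a vertex of degree 3 are not both bad -/
def TwoBadStmt : Prop := ∀ (M : Drawing), M.Good → M.HasX → ∀ e : M.D, inter e →
  (∀ e', M.org e' = M.org e → ¬ inter (M.rev e')) →
  M.rot (M.rot (M.rot e)) = e → M.rot (M.rot e) ≠ e →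
  ¬ gs (M.nxt e) → ¬ gs (M.nxt (M.rot e)) → False

/-- B11: a bad side -/
def BadStmt : Prop := ∀ (M : Drawing), M.Good → M.HasX → ∀ e : M.D, inter e →
  (∀ e', M.org e' = M.org e → ¬ inter (M.rev e')) → ¬ gs (M.nxt e) →
  M.rot (M.rot (M.rot e)) = e ∧ M.rot (M.rot e) ≠ e ∧
  ¬ M.cr (M.rev (M.nxt e)) ∧ M.nxt (M.nxt e) = M.rev (M.rot e) ∧
  gs (M.nxt (M.rev (M.nxt e))) ∧
  M.org (nx (M.nxt (M.rev (M.nxt e)))) = M.org (M.rev (M.rot (M.rot e))) ∧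
  gs (nx (M.nxt (M.rev (M.nxt e)))) ∧
  nx (nx (M.nxt (M.rev (M.nxt e)))) = M.rev (M.nxt e) ∧
  gs (M.nxt (M.rot e)) ∧ gs (M.nxt (M.rot (M.rot e)))

/-! ### C. The kernel -/

/-- C1 -/
def TauStmt : Prop := ∀ (M : Drawing), ∃ τ : Perm M.XD, IsTau τ

/-- C2 -/
def KernelStmt : Prop := ∀ (M : Drawing), M.Good → ∀ τ : Perm M.XD, IsTau τ →
  IsKernel M.rho τ

/-- C3 (from A1, A2): Euler's formula is inherited by the kernel -/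
def KEulerStmt : Prop := ∀ (M : Drawing) (τ : Perm M.XD), IsTau τ →
  orb M.rho + orb τ + orb (M.rho⁻¹ * τ) = Nat.card M.XD + 2 * comps M.rho τ

/-- interior vertices -/
def IV (M : Drawing) : Type := {v : M.V // ∀ d, M.org d = Sum.inl v → ¬ M.cr (M.rev d)}

/-- C4 -/
def KCountStmt : Prop := ∀ (M : Drawing) (τ : Perm M.XD), IsTau τ →
  Nat.card M.XD = 4 * Nat.card M.X ∧ orb τ + Nat.card (IV M) = Nat.card M.V

/-- C5: one step of `ψ = ρ⁻¹ τ` -/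
def StepStmt : Prop := ∀ (M : Drawing) (τ : Perm M.XD), IsTau τ → ∀ (P : M.D → Prop) (k k' : M.D),
  ¬ M.cr k → gs k → gs k' → (¬ M.cr (M.rev k) → P (M.rev k)) → LkP P (nx k) k' →
  (¬ M.cr (M.rev k') → P k') → ∀ x y : M.XD, x.1 = kp k → y.1 = kp k' →
  M.rho⁻¹ (τ x) = y ∧ ∀ u, Trav x u → P u

/-- exceptional structure of a `ψ`-cycle of length 4 -/
def Gam {X : Type} (ρ τ : Perm X) (x : X) : Prop :=
  ∃ x₀ x₁ x₂ x₃, (ρ⁻¹ * τ).SameCycle x x₀ ∧ x₁ = ρ⁻¹ (τ x₀) ∧ x₂ = ρ⁻¹ (τ x₁) ∧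
    x₃ = ρ⁻¹ (τ x₂) ∧
    ((¬ τ.SameCycle x₀ x₂ ∧ ¬ τ.SameCycle x₁ x₃ ∧
      ∃ y, τ.SameCycle x₀ y ∧ τ.SameCycle x₂ (ρ (ρ y)) ∧
        ((τ.SameCycle x₁ (ρ y) ∧ τ.SameCycle x₃ (ρ (ρ (ρ y)))) ∨
          (τ.SameCycle x₃ (ρ y) ∧ τ.SameCycle x₁ (ρ (ρ (ρ y)))))) ∨
      (τ.SameCycle x₁ x₃ ∧ ¬ τ.SameCycle x₀ x₂))

/-- what we need to know about the `ψ`-cycle of the crossing dart `x` of a good side `e` -/
structure OrbPack (M : Drawing) (τ : Perm M.XD) (e : M.D) (x : M.XD) : Prop where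
  a : ∃ p, (p = M.org e ∨ M.rho⁻¹ (τ (M.rho⁻¹ (τ x))) = x) ∧
    ∀ x' e', (M.rho⁻¹ * τ).SameCycle x x' → inter e' → gs (M.nxt e') →
      x'.1 = kp (M.nxt e') → M.org e' = M.org e ∨ M.org e' = p
  b : ∀ e₂ x₂, inter e₂ → gs (M.nxt e₂) → x₂.1 = kp (M.nxt e₂) →
    (M.org e₂ = M.org e ∨ ∃ e', M.org e' = M.org e ∧ M.org (M.rev e') = M.org e₂) →
    (M.rho⁻¹ * τ).SameCycle x x₂
  c : ∀ e', M.org e' = M.org e → inter (M.rev e') ∨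
    ∃ x', (M.rho⁻¹ * τ).SameCycle x x' ∧ M.org (M.rev x'.1) = M.org (M.rev e')
  d : ∀ x' u, (M.rho⁻¹ * τ).SameCycle x x' → Trav x' u → inter (M.rev u) ∨
    ∃ x'', (M.rho⁻¹ * τ).SameCycle x x'' ∧ M.org (M.rev x''.1) = M.org (M.rev u)
  f : M.rot (M.rot e) = e → M.rho⁻¹ (τ (M.rho⁻¹ (τ x))) = x
  g : M.rho⁻¹ (τ (M.rho⁻¹ (τ (M.rho⁻¹ (τ (M.rho⁻¹ (τ x))))))) = x →
    M.rho⁻¹ (τ (M.rho⁻¹ (τ x))) ≠ x → Gam M.rho τ x

/-- C6: all sides good, no interior neighbour -/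
def FullStmt : Prop := ∀ (M : Drawing), M.Good → M.HasX → ∀ τ : Perm M.XD, IsTau τ →
  ∀ e : M.D, inter e → (∀ e', M.org e' = M.org e → gs (M.nxt e') ∧ ¬ inter (M.rev e')) →
  ∀ x : M.XD, x.1 = kp (M.nxt e) → OrbPack M τ e x

/-- C7: a pair of adjacent interior vertices -/
def PairOrbStmt : Prop := ∀ (M : Drawing), M.Good → M.HasX → ∀ τ : Perm M.XD, IsTau τ →
  ∀ e : M.D, inter e → inter (M.rev e) →
  ∀ x : M.XD, x.1 = kp (M.nxt (M.rot e)) → OrbPack M τ (M.rot e) x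

/-- C8: a bad side `e` (then `rot e` and `rot (rot e)` are good) -/
def BadOrbStmt : Prop := ∀ (M : Drawing), M.Good → M.HasX → ∀ τ : Perm M.XD, IsTau τ →
  ∀ e : M.D, inter e → (∀ e', M.org e' = M.org e → ¬ inter (M.rev e')) → ¬ gs (M.nxt e) →
  ∀ e₁, (e₁ = M.rot e ∨ e₁ = M.rot (M.rot e)) →
  ∀ x : M.XD, x.1 = kp (M.nxt e₁) → OrbPack M τ e₁ x

/-- C9 (from C6, C7, C8, B9, B11) -/
def OrbStmt : Prop := ∀ (M : Drawing), M.Good → M.HasX → ∀ τ : Perm M.XD, IsTau τ →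
  (∀ e : M.D, inter e → ∃ e₀, M.org e₀ = M.org e ∧ gs (M.nxt e₀)) ∧
  ∀ e : M.D, inter e → gs (M.nxt e) → ∀ x : M.XD, x.1 = kp (M.nxt e) → OrbPack M τ e x

/-- C10 (from C9): if the kernel is disconnected, every component has an empty `ψ`-cycle -/
def EmptyStmt : Prop := ∀ (M : Drawing), M.Good → M.HasX → ∀ τ : Perm M.XD, IsTau τ →
  2 ≤ comps M.rho τ → ∀ x : M.XD, ∃ y : M.XD,
    (SameCycle.setoid M.rho ⊔ SameCycle.setoid τ) x y ∧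
    ∀ e x', inter e → gs (M.nxt e) → x'.1 = kp (M.nxt e) → ¬ (M.rho⁻¹ * τ).SameCycle y x'

/-! ### D. Abstract kernels -/

/-- Euler's formula for a kernel -/
def KEul {X : Type} (ρ τ : Perm X) : Prop :=
  orb ρ + orb τ + orb (ρ⁻¹ * τ) = Nat.card X + 2 * comps ρ τ

/-- D1 -/
def D1Stmt : Prop := ∀ (X : Type) [Finite X] (ρ τ : Perm X), IsKernel ρ τ →
  (∀ x, ρ⁻¹ (τ x) ≠ x) ∧ 4 * orb ρ = Nat.card X ∧
  (∀ x, (∀ y, τ.SameCycle x y → ρ⁻¹ (τ (ρ⁻¹ (τ y))) = y) → τ x ≠ x ∧ τ (τ x) ≠ x)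

/-- D2 (from D1) -/
def D2Stmt : Prop := ∀ (X : Type) [Finite X] (ρ τ : Perm X), IsKernel ρ τ → KEul ρ τ →
  (∀ x, ρ⁻¹ (τ (ρ⁻¹ (τ x))) = x) → 24 * comps ρ τ ≤ Nat.card X

/-- D3 (from A1, D1) -/
def D3Stmt : Prop := ∀ (X : Type) [Finite X] (ρ τ : Perm X), IsKernel ρ τ → KEul ρ τ →
  comps ρ τ = 1 → (∀ x, ρ⁻¹ (τ (ρ⁻¹ (τ x))) = x) → Nat.card X ≠ 28

/-- D4, D5 (from D1): the exceptional cycle -/
def D4Stmt : Prop := ∀ (X : Type) [Finite X] (ρ τ : Perm X), IsKernel ρ τ → KEul ρ τ →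
  comps ρ τ = 1 → ∀ x : X,
  ρ⁻¹ (τ (ρ⁻¹ (τ (ρ⁻¹ (τ (ρ⁻¹ (τ x))))))) = x → ρ⁻¹ (τ (ρ⁻¹ (τ x))) ≠ x →
  (∀ y, ¬ (ρ⁻¹ * τ).SameCycle x y → ρ⁻¹ (τ (ρ⁻¹ (τ y))) = y) →
  Gam ρ τ x → Nat.card X = 4 ∨ 28 ≤ Nat.card X

/-- D6 (from D1): counting -/
def D6Stmt : Prop := ∀ (X I : Type) [Finite X] [Finite I] (ρ τ : Perm X) (Φ : I → X),
  IsKernel ρ τ → KEul ρ τ → Nonempty X →
  (∀ v w, v ≠ w → (ρ⁻¹ * τ).SameCycle (Φ v) (Φ w) →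
    ρ⁻¹ (τ (ρ⁻¹ (τ (Φ v)))) = Φ v ∧ ∀ u, (ρ⁻¹ * τ).SameCycle (Φ v) (Φ u) → u = v ∨ u = w) →
  (2 ≤ comps ρ τ → ∀ x, ∃ y, (SameCycle.setoid ρ ⊔ SameCycle.setoid τ) x y ∧
    ∀ v, ¬ (ρ⁻¹ * τ).SameCycle y (Φ v)) →
  4 * (orb τ + Nat.card I) ≤ 5 * Nat.card X + 8 ∧
  (5 * Nat.card X + 4 ≤ 4 * (orb τ + Nat.card I) →
    comps ρ τ = 1 ∧ ∀ x, ρ⁻¹ (τ (ρ⁻¹ (τ x))) = x) ∧
  (5 * Nat.card X ≤ 4 * (orb τ + Nat.card I) →
    (∀ x, ρ⁻¹ (τ (ρ⁻¹ (τ x))) = x) ∨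
    (comps ρ τ = 1 ∧ ∃ v, ρ⁻¹ (τ (ρ⁻¹ (τ (ρ⁻¹ (τ (ρ⁻¹ (τ (Φ v)))))))) = Φ v ∧
      ρ⁻¹ (τ (ρ⁻¹ (τ (Φ v)))) ≠ Φ v ∧
      ∀ y, ¬ (ρ⁻¹ * τ).SameCycle (Φ v) y → ρ⁻¹ (τ (ρ⁻¹ (τ y))) = y))

/-! ### E. Conclusions of the lower bound -/

/-- E1: the numerical bounds -/
def LowStmt : Prop := ∀ (M : Drawing), M.Good → M.HasX →
  Nat.card M.V ≤ 5 * Nat.card M.X + 2 ∧
  (Nat.card M.X ≤ 5 → Nat.card M.V ≤ 5 * Nat.card M.X) ∧
  (2 ≤ Nat.card M.X → Nat.card M.X ≤ 5 → Nat.card M.V + 1 ≤ 5 * Nat.card M.X) ∧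
  (Nat.card M.X = 7 → Nat.card M.V ≤ 35)

/-- E2: small orders -/
def SmallStmt : Prop := ∀ (M : Drawing), M.Good → ¬ KConnected 3 M.graph → M.HasX →
  6 ≤ Nat.card M.V

/-- E3: no crossing -/
def PlanarStmt : Prop := ∀ (M : Drawing), M.Good → ¬ KConnected 3 M.graph → ¬ M.HasX →
  Nat.card M.V = 3

end Pool.Agent.H74.OneP
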