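import Pool.Agent.H74.OneP.Basic

/-! Definitions for the constructions (upper bound part). -/

namespace Pool.Agent.H74.OneP

open Equiv Equiv.Perm Drawing

/-- the data of a drawing -/
structure DrawData where
  V : Type
  X : Type
  F : Type
  D : Type
  org : D → V ⊕ X
  fac : D → F
  rot : Perm D
  rev : Perm D

namespace DrawData

/-- the easily checked properties -/
structure Valid (A : DrawData) : Prop where
  finV : Finite A.V
  finX : Finite A.X
  finF : Finite A.F
  finD : Finite A.D
  org_surj : Function.Surjective A.org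
  fac_surj : Function.Surjective A.fac
  org_rot : ∀ d, A.org (A.rot d) = A.org d
  fac_nxt : ∀ d, A.fac (A.rot⁻¹ (A.rev d)) = A.fac d
  rev_rev : ∀ d, A.rev (A.rev d) = d
  rev_ne : ∀ d, A.rev d ≠ d
  conn : ∀ s : Set A.D, s.Nonempty → (∀ d ∈ s, A.rot d ∈ s ∧ A.rev d ∈ s) → s = Set.univ
  euler : Nat.card A.D + 4 ≤ 2 * (Nat.card A.V + Nat.card A.X + Nat.card A.F)
  cross_four : ∀ d x, A.org d = Sum.inr x → A.rot (A.rot (A.rot (A.rot d))) = d
  cross_two : ∀ d x, A.org d = Sum.inr x → A.rot (A.rot d) ≠ d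
  cross_rev : ∀ d x, A.org d = Sum.inr x → ∃ v, A.org (A.rev d) = Sum.inl v

/-- the remaining properties of a drawing -/
structure Exact (A : DrawData) : Prop where
  valid : A.Valid
  org_iff : ∀ d e, A.org d = A.org e ↔ A.rot.SameCycle d e
  fac_iff : ∀ d e, A.fac d = A.fac e ↔ (A.rot⁻¹ * A.rev).SameCycle d e
  euler' : 2 * (Nat.card A.V + Nat.card A.X + Nat.card A.F) = Nat.card A.D + 4

/-- the drawing given by the data -/
def toDrawing (A : DrawData) (h : A.Exact) : Drawing where
  V := A.V
  X := A.X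
  F := A.F
  D := A.D
  finV := h.valid.finV
  finX := h.valid.finX
  finF := h.valid.finF
  finD := h.valid.finD
  org := A.org
  fac := A.fac
  rot := A.rot
  rev := A.rev
  org_surj := h.valid.org_surj
  fac_surj := h.valid.fac_surj
  org_iff := h.org_iff
  fac_iff := h.fac_iff
  rev_rev := h.valid.rev_rev
  rev_ne := h.valid.rev_ne
  conn := h.valid.conn
  euler := h.euler'
  cross_four := h.valid.cross_four
  cross_two := h.valid.cross_two
  cross_rev := h.valid.cross_rev

end DrawData

/-! ### Polygonal complexes and their skeletons -/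

/-- A sphere glued from crossing squares (type `C`) and plain polygons (type `T`, sides `R`). -/
structure PM where
  V : Type
  C : Type
  T : Type
  R : Type
  finV : Finite V
  finC : Finite C
  finT : Finite T
  finR : Finite R
  /-- start vertex of a side -/
  st : (C × Fin 4) ⊕ R → V
  /-- plain polygon of a plain side -/
  pol : R → T
  /-- next side of the same plain polygon -/
  nxR : Perm R
  /-- gluing of the sides -/
  gl : (C × Fin 4) ⊕ R → (C × Fin 4) ⊕ R
  gl_gl : ∀ e, gl (gl e) = e

namespace PM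

variable (Q : PM)

/-- sides -/
abbrev E : Type := (Q.C × Fin 4) ⊕ Q.R

/-- next side of the same polygon -/
def nx : Perm Q.E :=
  Equiv.sumCongr (Equiv.prodCongr (Equiv.refl Q.C) (Equiv.addRight (1 : Fin 4))) Q.nxR

/-- gluing as a permutation -/
def glp : Perm Q.E := Function.Involutive.toPerm Q.gl Q.gl_gl

/-- adjacency in the skeleton -/
def Adj (u v : Q.V) : Prop :=
  (∃ e, Q.st e = u ∧ Q.st (Q.nx e) = v) ∨
  (∃ c : Q.C, ∃ i : Fin 4, Q.st (Sum.inl (c, i)) = u ∧ Q.st (Sum.inl (c, i + 2)) = v)

structure Nice : Prop where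
  st_surj : Function.Surjective Q.st
  pol_surj : Function.Surjective Q.pol
  pol_nx : ∀ r, Q.pol (Q.nxR r) = Q.pol r
  st_gl : ∀ e, Q.st (Q.gl e) = Q.st (Q.nx e)
  gl_ne : ∀ e, Q.gl e ≠ e
  plain : ∀ r, ∃ a, Q.gl (Sum.inr r) = Sum.inl a
  conn : ∀ s : Set Q.E, s.Nonempty → (∀ e ∈ s, Q.nx e ∈ s ∧ Q.gl e ∈ s) → s = Set.univ
  euler : 4 * Nat.card Q.C + Nat.card Q.R + 4 ≤ 2 * (Nat.card Q.V + Nat.card Q.C + Nat.card Q.T)
  /-- the four corners of a crossing square are distinct -/
  corner : ∀ (c : Q.C) (i j : Fin 4), Q.st (Sum.inl (c, i)) = Q.st (Sum.inl (c, j)) → i = j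
  /-- no double sides -/
  side : ∀ e e', Q.st e = Q.st e' → Q.st (Q.nx e) = Q.st (Q.nx e') → e = e'
  /-- no double diagonals -/
  diag : ∀ (a a' : Q.C × Fin 4), Q.st (Sum.inl a) = Q.st (Sum.inl a') →
    Q.st (Sum.inl (a.1, a.2 + 2)) = Q.st (Sum.inl (a'.1, a'.2 + 2)) → a = a'
  /-- no diagonal is a side -/
  mixed : ∀ (a : Q.C × Fin 4) (e : Q.E), Q.st (Sum.inl a) = Q.st e →
    Q.st (Sum.inl (a.1, a.2 + 2)) ≠ Q.st (Q.nx e)
  /-- corners of plain polygons are distinct and adjacent -/
  clique : ∀ r r', Q.pol r = Q.pol r' → r ≠ r' →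
    Q.st (Sum.inr r) ≠ Q.st (Sum.inr r') ∧ Q.Adj (Q.st (Sum.inr r)) (Q.st (Sum.inr r'))
  /-- plain polygons have at least three corners -/
  plain3 : ∀ r, Q.nxR r ≠ r ∧ Q.nxR (Q.nxR r) ≠ r

/-- rotation of the skeleton -/
def skRot : Perm (Q.E ⊕ ((Q.C × Fin 4) ⊕ (Q.C × Fin 4))) where
  toFun d := match d with
    | .inl (.inl a) => .inr (.inl a)
    | .inl (.inr r) => .inl (Q.gl (Q.nx.symm (.inr r)))
    | .inr (.inl a) => .inl (Q.gl (Q.nx.symm (.inl a)))
    | .inr (.inr a) => .inr (.inr (a.1, a.2 + 1))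
  invFun d := match d with
    | .inl e => (match Q.nx (Q.gl e) with
      | .inl a => .inr (.inl a)
      | .inr r => .inl (.inr r))
    | .inr (.inl a) => .inl (.inl a)
    | .inr (.inr a) => .inr (.inr (a.1, a.2 - 1))
  left_inv d := by
    match d with
    | .inl (.inl a) => rfl
    | .inl (.inr r) => simp [Q.gl_gl]
    | .inr (.inl a) => simp [Q.gl_gl]
    | .inr (.inr a) => simp
  right_inv d := by
    match d with
    | .inl e =>
      rcases h : Q.nx (Q.gl e) with a | r
      · simp only [h]
        rw [← h]; simp [Q.gl_gl]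
      · simp only [h]
        rw [← h]; simp [Q.gl_gl]
    | .inr (.inl a) => rfl
    | .inr (.inr a) => simp

/-- reversal of the skeleton -/
def skRev : Perm (Q.E ⊕ ((Q.C × Fin 4) ⊕ (Q.C × Fin 4))) :=
  Equiv.sumCongr Q.glp (Equiv.sumComm _ _)

/-- The skeleton: every side is drawn as an uncrossed edge, every crossing square with its two
diagonals.  Darts: sides `inl e`, half-diagonals `inr (inl a)` leaving the corner `a` and
`inr (inr a)` leaving the crossing point towards the corner `a`. -/
def skel : DrawData where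
  V := Q.V
  X := Q.C
  F := (Q.C × Fin 4) ⊕ Q.T
  D := Q.E ⊕ ((Q.C × Fin 4) ⊕ (Q.C × Fin 4))
  org d := match d with
    | .inl e => .inl (Q.st e)
    | .inr (.inl a) => .inl (Q.st (.inl a))
    | .inr (.inr a) => .inr a.1
  fac d := match d with
    | .inl (.inl a) => .inl a
    | .inl (.inr r) => .inr (Q.pol r)
    | .inr (.inl a) => .inl (a.1, a.2 - 1)
    | .inr (.inr a) => .inl a
  rot := Q.skRot
  rev := Q.skRev

end PM

/-! ### Inserting vertices into faces -/

namespace Drawing

variable (M : Drawing)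

/-- darts of `M` leaving vertices, with their face in `S` -/
def TS (S : Set M.F) : Type := {t : M.D // M.fac t ∈ S ∧ ¬ M.cr t}

variable {M}

theorem not_cr_nxt {d : M.D} (h : M.cr d) : ¬ M.cr (M.nxt d) := by
  rw [cr_congr (org_nxt d)]; exact not_cr_rev h

theorem cr_rev_of_cr_nxt {d : M.D} (h : M.cr (M.nxt d)) : M.cr (M.rev d) :=
  (cr_congr (org_nxt d)).1 h

theorem not_cr_nxtinv {d : M.D} (h : M.cr d) : ¬ M.cr (M.nxt.symm d) := by
  intro h'
  have := not_cr_nxt h'
  simp at this
  exact this h

theorem fac_nxtinv (d : M.D) : M.fac (M.nxt.symm d) = M.fac d := by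
  rw [← fac_nxt (M.nxt.symm d)]; simp

open Classical in
/-- next dart leaving a vertex on the same face -/
noncomputable def nreal (d : M.D) : M.D :=
  if M.cr (M.nxt d) then M.nxt (M.nxt d) else M.nxt d

open Classical in
/-- previous dart leaving a vertex on the same face -/
noncomputable def preal (d : M.D) : M.D :=
  if M.cr (M.nxt.symm d) then M.nxt.symm (M.nxt.symm d) else M.nxt.symm d

theorem not_cr_nreal (d : M.D) : ¬ M.cr (nreal d) := by
  unfold nreal; split_ifs with h
  · exact not_cr_nxt h
  · exact h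

theorem not_cr_preal (d : M.D) : ¬ M.cr (preal d) := by
  unfold preal; split_ifs with h
  · exact not_cr_nxtinv h
  · exact h

@[simp] theorem fac_nreal (d : M.D) : M.fac (nreal d) = M.fac d := by
  unfold nreal; split_ifs <;> simp

@[simp] theorem fac_preal (d : M.D) : M.fac (preal d) = M.fac d := by
  unfold preal; split_ifs <;> simp [fac_nxtinv]

theorem preal_nreal {d : M.D} (h : ¬ M.cr d) : preal (nreal d) = d := by
  unfold nreal; split_ifs with h'
  · unfold preal; simp [h']
  · unfold preal; simp [h]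

theorem nreal_preal {d : M.D} (h : ¬ M.cr d) : nreal (preal d) = d := by
  unfold preal; split_ifs with h'
  · unfold nreal; simp [h']
  · unfold nreal; simp [h]

/-- next dart leaving a vertex on the same face, as a permutation -/
noncomputable def nextT (S : Set M.F) : Perm (M.TS S) where
  toFun t := ⟨nreal t.1, by rw [fac_nreal]; exact t.2.1, not_cr_nreal _⟩
  invFun t := ⟨preal t.1, by rw [fac_preal]; exact t.2.1, not_cr_preal _⟩
  left_inv t := Subtype.ext (preal_nreal t.2.2)
  right_inv t := Subtype.ext (nreal_preal t.2.2)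

variable (M)

open Classical in
/-- rotation after inserting a vertex into each face of `S` -/
noncomputable def coneRot (S : Set M.F) : Perm (M.D ⊕ (M.TS S ⊕ M.TS S)) where
  toFun d := match d with
    | .inl d => if h : M.fac d ∈ S ∧ ¬ M.cr d then .inr (.inl ⟨d, h⟩) else .inl (M.rot d)
    | .inr (.inl t) => .inl (M.rot t.1)
    | .inr (.inr t) => .inr (.inr (nextT S t))
  invFun d := match d with
    | .inl d => if h : M.fac (M.rot.symm d) ∈ S ∧ ¬ M.cr (M.rot.symm d) then
        .inr (.inl ⟨M.rot.symm d, h⟩) else .inl (M.rot.symm d)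
    | .inr (.inl t) => .inl t.1
    | .inr (.inr t) => .inr (.inr ((nextT S).symm t))
  left_inv d := by
    match d with
    | .inl d =>
      by_cases h : M.fac d ∈ S ∧ ¬ M.cr d
      · simp [h]
      · simp only [h, dite_false]
        simp [h]
    | .inr (.inl t) =>
      have h := t.2
      simp only [Equiv.symm_apply_apply]
      rw [dif_pos h]; rfl
    | .inr (.inr t) => simp
  right_inv d := by
    match d with
    | .inl d =>
      by_cases h : M.fac (M.rot.symm d) ∈ S ∧ ¬ M.cr (M.rot.symm d)
      · simp only [h, not_false_eq_true, and_self, dite_true]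
        simp
      · simp only [h, dite_false]
        simp
    | .inr (.inl t) =>
      have h := t.2
      simp only
      rw [dif_pos h]; rfl
    | .inr (.inr t) => simp

open Classical in
/-- The drawing with a new vertex inserted into each face of `S`, joined to all vertices of that
face.  Darts: the old ones, `inr (inl t)` leaving the corner `t` towards the new vertex, and
`inr (inr t)` leaving the new vertex towards the corner `t`. -/
noncomputable def cone (S : Set M.F) : DrawData where
  V := M.V ⊕ S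
  X := M.X
  F := {f : M.F // f ∉ S} ⊕ M.TS S
  D := M.D ⊕ (M.TS S ⊕ M.TS S)
  org d := match d with
    | .inl d => Sum.map Sum.inl id (M.org d)
    | .inr (.inl t) => Sum.map Sum.inl id (M.org t.1)
    | .inr (.inr t) => .inl (.inr ⟨M.fac t.1, t.2.1⟩)
  fac d := match d with
    | .inl d => if h : M.fac d ∈ S then
        (if h' : M.cr d then .inr ⟨preal d, by rw [fac_preal]; exact h, not_cr_preal _⟩
          else .inr ⟨d, h, h'⟩)
        else .inl ⟨M.fac d, h⟩
    | .inr (.inl t) => .inr ((nextT S).symm t)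
    | .inr (.inr t) => .inr t
  rot := M.coneRot S
  rev := Equiv.sumCongr M.rev (Equiv.sumComm _ _)

/-- an uncrossed edge between two two-sided faces -/
def LensD (a : M.D) : Prop := ¬ M.cr a ∧ ¬ M.cr (M.rev a) ∧ gs a ∧ gs (M.rev a)

/-- a face with at least three vertices, all of whose uncrossed sides have a two-sided face
behind them -/
def PlainSlot (f : M.F) : Prop :=
  (∃ a b c, ¬ M.cr a ∧ ¬ M.cr b ∧ ¬ M.cr c ∧ M.fac a = f ∧ M.fac b = f ∧ M.fac c = f ∧
    M.org a ≠ M.org b ∧ M.org a ≠ M.org c ∧ M.org b ≠ M.org c) ∧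
  ∀ k, M.fac k = f → ¬ M.cr k → ¬ M.cr (M.rev k) → gs k

/-- conditions for inserting vertices into the faces of `S` -/
structure ConeOK (S : Set M.F) : Prop where
  /-- at least two different vertices on each face of `S` -/
  two : ∀ f ∈ S, ∃ a b, ¬ M.cr a ∧ ¬ M.cr b ∧ M.fac a = f ∧ M.fac b = f ∧ M.org a ≠ M.org b
  /-- a face of `S` visits a vertex only once -/
  inj : ∀ a b, M.fac a ∈ S → ¬ M.cr a → ¬ M.cr b → M.fac a = M.fac b → M.org a = M.org b → a = b
  /-- the face behind an uncrossed side of a face of `S` is not in `S` and has no other vertices -/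
  across : ∀ k, M.fac k ∈ S → ¬ M.cr k → ¬ M.cr (M.rev k) → M.fac (M.rev k) ∉ S ∧
    ∀ t, ¬ M.cr t → M.fac t = M.fac (M.rev k) → ∃ t', ¬ M.cr t' ∧ M.fac t' = M.fac k ∧
      M.org t' = M.org t

end Drawing

end Pool.Agent.H74.OneP
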