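import Pool.Agent.H74.OneP.Stmts
import Pool.Agent.H74.OneP.UDefs

/-! Statements of the modules (upper bound part). -/

namespace Pool.Agent.H74.OneP

open Equiv Equiv.Perm Drawing

/-- U1 (from A1) -/
def ExactStmt : Prop := ∀ A : DrawData, A.Valid → A.Exact

/-- U2 -/
def SkelValidStmt : Prop := ∀ Q : PM, Q.Nice → Q.skel.Valid

/-- U0: maximal drawings are 2-connected -/
def TwoConnStmt : Prop := ∀ M : Drawing, M.IsSimple → M.IsMaximal → 2 < Nat.card M.V →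
  KConnected 2 M.graph

/-- U3 (from U0) -/
def SkelGoodStmt : Prop := ∀ Q : PM, Q.Nice → 2 < Nat.card Q.V → ∀ h : Q.skel.Exact,
  (Q.skel.toDrawing h).Good

/-- U4 -/
def ConeValidStmt : Prop := ∀ (M : Drawing), M.Good → ∀ S : Set M.F, M.ConeOK S →
  (M.cone S).Valid

/-- U5 (from U0) -/
def ConeGoodStmt : Prop := ∀ (M : Drawing), M.Good → ∀ S : Set M.F, M.ConeOK S →
  ∀ h : (M.cone S).Exact, ((M.cone S).toDrawing h).Good

/-- `{a, b}` separates `A` from another vertex -/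
def Cut2 {V : Type} (G : SimpleGraph V) : Prop :=
  ∃ (a b : V) (A : Set V), a ∉ A ∧ b ∉ A ∧ A.Nonempty ∧ (∃ z, z ∉ A ∧ z ≠ a ∧ z ≠ b) ∧
    ∀ x ∈ A, ∀ y, G.Adj x y → y ∈ A ∨ y = a ∨ y = b

/-- U6 -/
def CutStmt : Prop :=
  (∀ (V : Type) (G : SimpleGraph V), Cut2 G → ¬ KConnected 3 G) ∧
  (∀ (M : Drawing), M.Good → ∀ S : Set M.F, M.ConeOK S → ∀ h : (M.cone S).Exact,
    Cut2 M.graph → Cut2 ((M.cone S).toDrawing h).graph) ∧
  (∀ (M : Drawing), M.Good → ∀ S : Set M.F, M.ConeOK S → ∀ h : (M.cone S).Exact,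
    (∃ f ∈ S, ∃ p q, ∀ t, ¬ M.cr t → M.fac t = f → M.org t = p ∨ M.org t = q) →
    Cut2 ((M.cone S).toDrawing h).graph)

/-- U7 (from B1): the first set of faces -/
def S1Stmt : Prop := ∀ (M : Drawing), M.Good → ∀ (A : Set M.D) (B : Set M.F),
  (∀ a ∈ A, M.LensD a ∧ M.rev a ∉ A) → (∀ f ∈ B, M.PlainSlot f) →
  M.ConeOK {f | (∃ a ∈ A, f = M.fac a) ∨ f ∈ B} ∧
  Nat.card {f | (∃ a ∈ A, f = M.fac a) ∨ f ∈ B} = Nat.card A + Nat.card B

/-- the triangles at the sides `a ∈ A` after inserting vertices into the faces of `S` -/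
def S2 (M : Drawing) (S : Set M.F) (h : (M.cone S).Exact) (A : Set M.D) :
    Set ((M.cone S).toDrawing h).F :=
  {f : {f : M.F // f ∉ S} ⊕ M.TS S | ∃ a ∈ A, ∃ t, f = Sum.inr t ∧ t.1 = a}

/-- U8: the second set of faces -/
def S2Stmt : Prop := ∀ (M : Drawing), M.Good → ∀ (S : Set M.F), M.ConeOK S →
  ∀ (h : (M.cone S).Exact) (A : Set M.D), (∀ a ∈ A, M.fac a ∈ S ∧ M.LensD a) →
  ((M.cone S).toDrawing h).ConeOK (S2 M S h A) ∧ Nat.card (S2 M S h A) = Nat.card A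

/-- a drawing with `c` crossings, `v` vertices, `l` lenses and `t` plain slots -/
def HasBase (c v l t : ℕ) : Prop := ∃ M : Drawing, M.Good ∧ Nat.card M.X = c ∧ Nat.card M.V = v ∧
  ∃ (A : Set M.D) (B : Set M.F), (∀ a ∈ A, M.LensD a ∧ M.rev a ∉ A) ∧
    (∀ f ∈ B, M.PlainSlot f) ∧ Nat.card A = l ∧ Nat.card B = t

/-- U9 (from U1, U4-U8): all orders obtained from a base drawing -/
def FillStmt : Prop := ∀ c v l t, HasBase c v l t → 1 ≤ l →
  ∀ n, v < n → n ≤ v + 2 * l + t → Realizable n c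

/-- a complex with `c` crossing squares, `v` vertices, `2 * l` lens sides and `t` plain
polygons -/
def HasPM (c v l t : ℕ) : Prop := ∃ Q : PM, Q.Nice ∧ Nat.card Q.C = c ∧ Nat.card Q.V = v ∧
  Nat.card Q.T = t ∧ Nat.card {a : Q.C × Fin 4 // ∃ b, Q.gl (Sum.inl a) = Sum.inl b} = 2 * l

/-- U10 (from U1, U2, U3) -/
def SkelBaseStmt : Prop := ∀ c v l t, 2 < v → HasPM c v l t → HasBase c v l t

/-- a quadrangulation with `c` faces and distinct diagonals -/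
def HasQuad (c : ℕ) : Prop := ∃ Q : PM, Q.Nice ∧ Nat.card Q.C = c ∧ Nat.card Q.V = c + 2 ∧
  IsEmpty Q.T ∧ IsEmpty Q.R

/-- U11: inserting a quadrangle into a face -/
def InsertStmt : Prop := ∀ c, 1 ≤ c → HasQuad c → HasQuad (c + 4)

/-- U12: base quadrangulations (by `decide`) -/
def BaseQuadStmt : Prop := HasQuad 6 ∧ HasQuad 8 ∧ HasQuad 9 ∧ HasQuad 11

/-- U13: small complexes (by `decide`) -/
def BaseSmallStmt : Prop := HasPM 3 6 3 2 ∧ HasPM 4 7 5 2 ∧ HasPM 5 8 7 2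

/-- U14 (explicit drawing with 26 darts) -/
def Base2Stmt : Prop := HasBase 2 5 1 2

/-- U15 (explicit drawing with 86 darts) -/
def Base7Stmt : Prop := HasBase 7 10 12 1

/-- U16: the triangle -/
def TriangleStmt : Prop := Realizable 3 0

/-- U17 (from U9-U15) -/
def UpperStmt : Prop := ∀ n, 6 ≤ n → Realizable n (c2 n)

/-- E4 (from E1-E3) -/
def LowerStmt : Prop := ∀ n c, Realizable n c → n = 3 ∨ (6 ≤ n ∧ c2 n ≤ c)

/-- the final result -/
def MainStmt : Prop :=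
  (∀ n, (∃ c, Realizable n c) ↔ n = 3 ∨ 6 ≤ n) ∧
  IsLeast {c | Realizable 3 c} 0 ∧
  ∀ n, 6 ≤ n → IsLeast {c | Realizable n c} (c2 n)

theorem main_of (h1 : TriangleStmt) (h2 : UpperStmt) (h3 : LowerStmt) : MainStmt := by
  refine ⟨fun n => ⟨?_, ?_⟩, ⟨h1, fun c _ => Nat.zero_le c⟩, fun n hn => ⟨h2 n hn, fun c hc => ?_⟩⟩
  · rintro ⟨c, hc⟩
    rcases h3 n c hc with h | h
    · exact Or.inl h
    · exact Or.inr h.1
  · rintro (rfl | h)
    · exact ⟨0, h1⟩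
    · exact ⟨_, h2 n h⟩
  · rcases h3 n c hc with h | h
    · omega
    · exact h.2

end Pool.Agent.H74.OneP
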